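import Mathlib

set_option autoImplicit false

/-!
Base change of maps of free modules; colon submodules.
-/

namespace Run7.h25

universe u v w

noncomputable section

section bc

variable {A : Type u} {A' : Type v} [Ring A] [Ring A'] (θ : A →+* A')

/-- base change of a map of free modules -/
def bc {m n : ℕ} (f : (Fin m → A) →ₗ[A] (Fin n → A)) : (Fin m → A') →ₗ[A'] (Fin n → A') :=
  Fintype.linearCombination A' (fun i c => θ (f (Pi.single i 1) c))

/-- the coordinatewise map -/
def cw (m : ℕ) : (Fin m → A) →+ (Fin m → A') where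
  toFun x i := θ (x i)
  map_zero' := by funext i; exact map_zero θ
  map_add' x y := by funext i; exact map_add θ _ _

lemma cw_apply {m : ℕ} (x : Fin m → A) (i : Fin m) : cw θ m x i = θ (x i) := rfl

lemma cw_smul {m : ℕ} (a : A) (x : Fin m → A) : cw θ m (a • x) = θ a • cw θ m x := by
  funext i
  rw [cw_apply, Pi.smul_apply, Pi.smul_apply, cw_apply, smul_eq_mul, smul_eq_mul, map_mul]

lemma bc_cw {m n : ℕ} (f : (Fin m → A) →ₗ[A] (Fin n → A)) (x : Fin m → A) :
    bc θ f (cw θ m x) = cw θ n (f x) := by
  have h1 : f x = ∑ i, x i • f (Pi.single i 1) := by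
    conv_lhs => rw [pi_eq_sum_univ' x]
    rw [map_sum]
    apply Finset.sum_congr rfl
    intro i _
    rw [map_smul]
  rw [h1, map_sum, bc, Fintype.linearCombination_apply]
  apply Finset.sum_congr rfl
  intro i _
  rw [cw_smul]
  rfl

end bc

section colon

variable {A : Type u} [Ring A]

/-- the colon submodule -/
def colon {M : Type v} [AddCommGroup M] [Module A M] (N : ℕ) (Φ : Submodule A M) :
    Submodule A M := Φ.comap (N • (LinearMap.id : M →ₗ[A] M))

lemma mem_colon {M : Type v} [AddCommGroup M] [Module A M] (N : ℕ) (Φ : Submodule A M) (x : M) :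
    x ∈ colon N Φ ↔ N • x ∈ Φ := Iff.rfl

theorem colon_fg {A' : Type v} [Ring A'] (π : A →+* A') (hπ : Function.Surjective π) (p : ℕ)
    (h1 : ∀ a, π a = 0 → ∃ b, a = p • b) (h2 : ∀ a : A, p • a = 0 → a = 0) (h3 : (p : A') = 0)
    (h4 : ∀ (r m : ℕ) (g : (Fin r → A') →ₗ[A'] (Fin m → A')), (LinearMap.ker g).FG)
    {m : ℕ} (Φ : Submodule A (Fin m → A)) (hΦ : Φ.FG) : (colon p Φ).FG := by
  classical
  obtain ⟨r, s, hs⟩ := Submodule.fg_iff_exists_fin_generating_family.1 hΦ
  let g : (Fin r → A) →ₗ[A] (Fin m → A) := Fintype.linearCombination A s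
  have hg : LinearMap.range g = Φ := by
    rw [← hs]
    exact Fintype.range_linearCombination A s
  obtain ⟨T, hT⟩ := h4 r m (bc π g)
  have hdiv : ∀ (k : ℕ) (x : Fin k → A), cw π k x = 0 → ∃ y, x = p • y := by
    intro k x hx
    have : ∀ i, ∃ b, x i = p • b := fun i => h1 _ (congrFun hx i)
    choose y hy using this
    exact ⟨y, funext hy⟩
  have htf : ∀ (k : ℕ) (x : Fin k → A), p • x = 0 → x = 0 := by
    intro k x hx
    funext i
    exact h2 _ (congrFun hx i)
  have hsurj : ∀ (k : ℕ) (x : Fin k → A'), ∃ y, cw π k y = x := by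
    intro k x
    choose y hy using fun i => hπ (x i)
    exact ⟨y, funext hy⟩
  have hp0 : ∀ (k : ℕ) (x : Fin k → A), cw π k (p • x) = 0 := by
    intro k x
    funext i
    rw [cw_apply, Pi.smul_apply, map_nsmul, nsmul_eq_mul, h3, zero_mul]
    rfl
  have hl : ∀ t ∈ T, ∃ y, cw π r y = t ∧ ∃ x, g y = p • x := by
    intro t ht
    obtain ⟨y, hy⟩ := hsurj r t
    refine ⟨y, hy, ?_⟩
    apply hdiv
    rw [← bc_cw, hy]
    have : t ∈ LinearMap.ker (bc π g) := by
      rw [← hT]
      exact Submodule.subset_span ht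
    exact this
  choose! y hy1 x hx using hl
  have hmain : colon p Φ = Φ ⊔ Submodule.span A ((T.image x : Finset _) : Set (Fin m → A)) := by
    apply le_antisymm
    · intro z hz
      rw [mem_colon, ← hg] at hz
      obtain ⟨c, hc⟩ := hz
      have hc1 : cw π r c ∈ Submodule.span A' (T : Set (Fin r → A')) := by
        rw [hT, LinearMap.mem_ker, bc_cw, hc, hp0]
      have hkey : ∀ w ∈ Submodule.span A' (T : Set (Fin r → A')), ∃ c : Fin r → A,
          cw π r c = w ∧ ∃ z ∈ Submodule.span A ((T.image x : Finset _) : Set (Fin m → A)),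
            g c = p • z := by
        intro w hw
        induction hw using Submodule.span_induction with
        | mem t ht =>
          refine ⟨y t, hy1 t ht, x t, ?_, hx t ht⟩
          apply Submodule.subset_span
          rw [Finset.coe_image]
          exact ⟨t, ht, rfl⟩
        | zero => exact ⟨0, map_zero _, 0, zero_mem _, by rw [map_zero, smul_zero]⟩
        | add a b _ _ ha hb =>
          obtain ⟨c, hc, z, hz, hcz⟩ := ha
          obtain ⟨c', hc', z', hz', hcz'⟩ := hb
          exact ⟨c + c', by rw [map_add, hc, hc'], z + z', add_mem hz hz', by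
            rw [map_add, hcz, hcz', smul_add]⟩
        | smul a b _ hb =>
          obtain ⟨c, hc, z, hz, hcz⟩ := hb
          obtain ⟨a', rfl⟩ := hπ a
          exact ⟨a' • c, by rw [cw_smul, hc], a' • z, Submodule.smul_mem _ _ hz, by
            rw [map_smul, hcz, smul_comm]⟩
      obtain ⟨c', hc', z', hz', hcz'⟩ := hkey _ hc1
      obtain ⟨d, hd⟩ := hdiv r (c - c') (by rw [map_sub, hc', sub_self])
      have hcd : c = c' + p • d := by rw [← hd, add_sub_cancel]
      have hz0 : p • (z - (z' + g d)) = 0 := by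
        rw [smul_sub, smul_add, ← hc, ← hcz', hcd, map_add, map_nsmul, sub_self]
      have hz1 := sub_eq_zero.1 (htf m _ hz0)
      rw [hz1, add_comm]
      refine Submodule.add_mem_sup ?_ hz'
      rw [← hg]
      exact ⟨d, rfl⟩
    · apply sup_le
      · intro z hz
        rw [mem_colon]
        exact nsmul_mem hz p
      · rw [Submodule.span_le]
        intro z hz
        rw [Finset.coe_image] at hz
        obtain ⟨t, ht, rfl⟩ := hz
        show x t ∈ colon p Φ
        rw [mem_colon, ← hx t ht, ← hg]
        exact ⟨_, rfl⟩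
  rw [hmain]
  exact hΦ.sup ⟨_, rfl⟩

theorem colon_all {m : ℕ}
    (h : ∀ p : ℕ, p.Prime → ∀ (Φ : Submodule A (Fin m → A)), Φ.FG → (colon p Φ).FG)
    (N : ℕ) (hN : N ≠ 0) (Φ : Submodule A (Fin m → A)) (hΦ : Φ.FG) : (colon N Φ).FG := by
  induction N using induction_on_primes generalizing Φ with
  | zero => exact absurd rfl hN
  | one =>
    have : colon 1 Φ = Φ := by
      ext x
      rw [mem_colon, one_smul]
    rwa [this]
  | prime_mul p a hp ih =>
    have ha : a ≠ 0 := by
      rintro rfl
      exact hN (mul_zero _)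
    have : colon (p * a) Φ = colon a (colon p Φ) := by
      ext x
      rw [mem_colon, mem_colon, mem_colon, mul_smul]
    rw [this]
    exact ih ha _ (h p hp Φ hΦ)

end colon

end

end Run7.h25
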