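import Mathlib
import Pool.Agent.H26R2.Idem.Free

set_option autoImplicit false

/-!
Fox derivatives on finitely supported functions on a free group with values in an arbitrary
additive commutative group.
-/

namespace Run7.h25

open Pool.Agent.H26R2.Idem MonoidAlgebra

universe u v w

noncomputable section

section transl

variable {G : Type u} [Group G] {B : Type v} [AddCommGroup B]

/-- left translation of finitely supported functions -/
def Lt (g : G) : (G →₀ B) →+ (G →₀ B) := Finsupp.mapDomain.addMonoidHom (g * ·)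

lemma Lt_single (g h : G) (b : B) : Lt g (Finsupp.single h b) = Finsupp.single (g * h) b := by
  unfold Lt
  simp [Finsupp.mapDomain.addMonoidHom]

lemma Lt_apply (g : G) (y : G →₀ B) (h : G) : Lt g y h = y (g⁻¹ * h) := by
  induction y using Finsupp.induction_linear with
  | zero => simp
  | add f g hf hg => simp [hf, hg]
  | single x b =>
    classical
    rw [Lt_single, Finsupp.single_apply, Finsupp.single_apply]
    by_cases hh : g * x = h
    · rw [if_pos hh, if_pos (by rw [← hh, inv_mul_cancel_left])]
    · rw [if_neg hh, if_neg (fun h2 => hh (by rw [h2, mul_inv_cancel_left]))]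

lemma Lt_one (y : G →₀ B) : Lt 1 y = y := by
  ext h; rw [Lt_apply]; simp

lemma Lt_mul (g h : G) (y : G →₀ B) : Lt (g * h) y = Lt g (Lt h y) := by
  ext x; simp only [Lt_apply]; simp [mul_assoc]

/-- sum of the values -/
def eps : (G →₀ B) →+ B := Finsupp.liftAddHom (fun _ => AddMonoidHom.id B)

lemma eps_single (g : G) (b : B) : eps (Finsupp.single g b) = b := by
  simp [eps]

lemma eps_Lt (g : G) (y : G →₀ B) : eps (Lt g y) = eps y := by
  induction y using Finsupp.induction_linear with
  | zero => simp
  | add f g hf hg => simp [hf, hg]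
  | single x b => rw [Lt_single, eps_single, eps_single]

end transl

variable {α : Type u} [DecidableEq α] {B : Type v} [AddCommGroup B]

/-- an integral combination of group elements times an element of `B` -/
def tens {G : Type u} (b : B) : MonoidAlgebra ℤ G →+ (G →₀ B) where
  toFun a := a.coeff.mapRange (fun n : ℤ => n • b) (zero_smul _ _)
  map_zero' := by simp
  map_add' x y := by
    ext g
    simp [add_smul]

lemma tens_apply {G : Type u} (b : B) (a : MonoidAlgebra ℤ G) (g : G) :
    tens b a g = a.coeff g • b := rfl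

lemma tens_single {G : Type u} (b : B) (g : G) (n : ℤ) :
    tens b (single g n) = Finsupp.single g (n • b) := by
  ext h
  rw [tens_apply, coeff_single]
  by_cases hh : g = h
  · subst hh; simp
  · simp [Finsupp.single_apply, hh]

lemma tens_zero {G : Type u} (a : MonoidAlgebra ℤ G) : tens (0 : B) a = 0 := by
  ext h; rw [tens_apply]; simp

lemma tens_add {G : Type u} (b c : B) (a : MonoidAlgebra ℤ G) :
    tens (b + c) a = tens b a + tens c a := by
  ext h; simp [tens_apply]

lemma tens_Lt {G : Type u} [Group G] (b : B) (g : G) (a : MonoidAlgebra ℤ G) :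
    tens b (single g 1 * a) = Lt g (tens b a) := by
  ext h
  rw [tens_apply, Lt_apply, tens_apply, coeff_single_mul', one_mul]

/-- Fox derivative -/
def D (j : α) : (FreeGroup α →₀ B) →+ (FreeGroup α →₀ B) :=
  Finsupp.liftAddHom (fun g =>
    { toFun := fun b => tens b (dd ℤ j g)
      map_zero' := tens_zero _
      map_add' := fun b c => tens_add b c _ })

lemma D_single (j : α) (g : FreeGroup α) (b : B) :
    D j (Finsupp.single g b) = tens b (dd ℤ j g) := by
  unfold D
  rw [Finsupp.liftAddHom_apply_single]
  rfl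

lemma D_apply (j : α) (y : FreeGroup α →₀ B) :
    D j y = y.sum (fun g b => tens b (dd ℤ j g)) := by
  simp [D, Finsupp.liftAddHom_apply]

lemma D_Lt (i j : α) (y : FreeGroup α →₀ B) :
    D j (Lt (FreeGroup.of i) y) = (if i = j then y else 0) + D j y := by
  induction y using Finsupp.induction_linear with
  | zero => simp
  | add f g hf hg =>
    rw [map_add, map_add, hf, hg, map_add]
    split_ifs
    · abel
    · abel
  | single g b =>
    rw [Lt_single, D_single, D_single, dd_mul, dd_of, map_add]
    congr 1
    split_ifs with h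
    · rw [one_mul, tens_single, one_smul]
    · rw [zero_mul, map_zero]

/-- the fundamental formula in the integral group ring -/
lemma fund_Z (x : FreeGroup α) : ∃ S : Finset α, ∀ T : Finset α, S ⊆ T →
    (single x (1 : ℤ) : MonoidAlgebra ℤ (FreeGroup α)) - 1 =
      ∑ j ∈ T, (single (FreeGroup.of j) 1 - 1) * dd ℤ j x := by
  induction x using FreeGroup.induction_on with
  | C1 =>
    refine ⟨∅, fun T _ => ?_⟩
    rw [← one_def, sub_self]
    symm
    apply Finset.sum_eq_zero
    intro j _
    rw [dd_one, mul_zero]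
  | of i =>
    refine ⟨{i}, fun T hT => ?_⟩
    rw [Finset.sum_eq_single i]
    · rw [dd_of, if_pos rfl, mul_one]
    · intro j _ hj
      rw [dd_of, if_neg (Ne.symm hj), mul_zero]
    · intro h
      exact absurd (hT (Finset.mem_singleton_self i)) h
  | inv_of i _ =>
    refine ⟨{i}, fun T hT => ?_⟩
    rw [Finset.sum_eq_single i]
    · rw [dd_inv, dd_of, if_pos rfl, one_mul, mul_neg, sub_mul, single_mul_single,
        mul_inv_cancel, one_mul, one_mul, neg_sub, one_def]
    · intro j _ hj
      rw [dd_inv, dd_of, if_neg (Ne.symm hj), zero_mul, neg_zero, mul_zero]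
    · intro h
      exact absurd (hT (Finset.mem_singleton_self i)) h
  | mul x y hx hy =>
    obtain ⟨S1, h1⟩ := hx
    obtain ⟨S2, h2⟩ := hy
    refine ⟨S1 ∪ S2, fun T hT => ?_⟩
    have e1 := h1 T (Finset.union_subset_left hT)
    have e2 := h2 T (Finset.union_subset_right hT)
    have : ∀ j, dd ℤ j (x * y) = dd ℤ j x * single y 1 + dd ℤ j y := fun j => dd_mul ℤ j x y
    simp only [this, mul_add, Finset.sum_add_distrib, ← mul_assoc, ← Finset.sum_mul, ← e1, ← e2]
    rw [sub_mul, single_mul_single, one_mul, one_mul]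
    abel

/-- the fundamental formula -/
lemma fund (y : FreeGroup α →₀ B) : ∃ S : Finset α, ∀ T : Finset α, S ⊆ T →
    y = Finsupp.single 1 (eps y) + ∑ j ∈ T, (Lt (FreeGroup.of j) (D j y) - D j y) := by
  induction y using Finsupp.induction_linear with
  | zero => exact ⟨∅, fun T _ => by simp⟩
  | add f g hf hg =>
    obtain ⟨S1, h1⟩ := hf
    obtain ⟨S2, h2⟩ := hg
    refine ⟨S1 ∪ S2, fun T hT => ?_⟩
    have e1 := h1 T (Finset.union_subset_left hT)
    have e2 := h2 T (Finset.union_subset_right hT)
    conv_lhs => rw [e1, e2]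
    simp only [map_add, Finsupp.single_add, Finset.sum_sub_distrib, Finset.sum_add_distrib]
    abel
  | single x b =>
    obtain ⟨S, h⟩ := fund_Z x
    refine ⟨S, fun T hT => ?_⟩
    have e := congrArg (tens b) (h T hT)
    rw [map_sub, tens_single, one_smul, one_def, tens_single, one_smul, map_sum] at e
    rw [eps_single]
    rw [← sub_eq_iff_eq_add', e]
    apply Finset.sum_congr rfl
    intro j _
    rw [D_single, ← tens_Lt, ← map_sub, sub_mul, ← one_def, one_mul]

/-- uniqueness -/
lemma uniq (T : Finset α) (z : α → (FreeGroup α →₀ B))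
    (h : ∑ j ∈ T, (Lt (FreeGroup.of j) (z j) - z j) = 0) (i : α) (hi : i ∈ T) : z i = 0 := by
  have e := congrArg (D i) h
  rw [map_sum, map_zero] at e
  have e2 : ∀ j ∈ T, D i (Lt (FreeGroup.of j) (z j) - z j) = if j = i then z j else 0 := by
    intro j _
    rw [map_sub, D_Lt, add_sub_cancel_right]
  rw [Finset.sum_congr rfl e2, Finset.sum_ite_eq' T i z, if_pos hi] at e
  exact e

lemma D_supp (j : α) (P : Finset (FreeGroup α)) (hP : Cl P)
    (a : FreeGroup α →₀ B) (ha : ∀ u, a u ≠ 0 → u ∈ P)
    (u : FreeGroup α) (hu : D j a u ≠ 0) : u ∈ P ∧ FreeGroup.of j * u ∈ P := by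
  rw [D_apply, Finsupp.sum, Finsupp.finsetSum_apply] at hu
  obtain ⟨g, hg, hgu⟩ := Finset.exists_ne_zero_of_sum_ne_zero hu
  have hgP := ha g (Finsupp.mem_support_iff.1 hg)
  apply dd_supp' ℤ j P hP g hgP u
  intro h0
  apply hgu
  rw [tens_apply, h0, zero_smul]

lemma vanish_aux (Q : AddSubgroup (FreeGroup α →₀ B))
    (hQD : ∀ j, ∀ y ∈ Q, D j y ∈ Q) (hQL : ∀ j, ∀ y ∈ Q, Lt (FreeGroup.of j) y ∈ Q)
    (hQe : ∀ y ∈ Q, eps y = 0) : ∀ (n : ℕ) (P : Finset (FreeGroup α)), Cl P → P.card = n →
    ∀ a : FreeGroup α →₀ B, (∀ u, a u ≠ 0 → u ∈ P) → a ∈ Q → a = 0 := by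
  intro n
  induction n using Nat.strong_induction_on with
  | _ n ih =>
  intro P hP hcard a ha haQ
  by_cases hne : ∃ v ∈ P, v ≠ 1
  · -- an element of maximal length
    obtain ⟨v, hv, hmax⟩ := Finset.exists_max_image (P.filter (fun v => v ≠ 1))
      (fun v => v.toWord.length) (by
        obtain ⟨v, hv, hv1⟩ := hne
        exact ⟨v, Finset.mem_filter.2 ⟨hv, hv1⟩⟩)
    obtain ⟨hvP, hv1⟩ := Finset.mem_filter.1 hv
    have hlen : ∀ w ∈ P, w.toWord.length ≤ v.toWord.length := by
      intro w hw
      by_cases hw1 : w = 1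
      · rw [hw1, FreeGroup.toWord_one]
        exact Nat.zero_le _
      · exact hmax w (Finset.mem_filter.2 ⟨hw, hw1⟩)
    have hQ : Cl (P.erase v) := by
      refine ⟨Finset.mem_erase.2 ⟨hv1.symm, hP.1⟩, fun w hw hw1 => ?_⟩
      obtain ⟨-, hwP⟩ := Finset.mem_erase.1 hw
      refine Finset.mem_erase.2 ⟨fun h => ?_, hP.2 w hwP hw1⟩
      have h1 : (tl w).toWord.length = w.toWord.length - 1 := by
        rw [toWord_tl, List.length_tail]
      have h2 : w.toWord.length ≠ 0 := fun h0 =>
        hw1 (FreeGroup.toWord_eq_nil_iff.1 (List.length_eq_zero_iff.1 h0))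
      rw [h] at h1
      have h3 := hlen w hwP
      omega
    have hcardQ : (P.erase v).card < n := by
      rw [← hcard]
      exact Finset.card_erase_lt_of_mem hvP
    -- it suffices that the coefficient at v vanishes
    have hfin : a v = 0 → a = 0 := by
      intro h0
      refine ih _ hcardQ _ hQ rfl a (fun u hu => Finset.mem_erase.2 ⟨?_, ha u hu⟩) haQ
      rintro rfl
      exact hu h0
    apply hfin
    obtain ⟨⟨j, b⟩, L, hL⟩ : ∃ ℓ L, v.toWord = ℓ :: L := by
      cases hvw : v.toWord with
      | nil => exact absurd (FreeGroup.toWord_eq_nil_iff.1 hvw) hv1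
      | cons ℓ L => exact ⟨ℓ, L, rfl⟩
    have hveq := eq_mul_tl v j b L hL
    have hlong := length_mul v j b L hL
    have hnot : FreeGroup.mk [(j, b)] * v ∉ P := by
      intro h
      have := hlen _ h
      omega
    have htP : tl v ∈ P.erase v := by
      refine Finset.mem_erase.2 ⟨fun h => ?_, hP.2 v hvP hv1⟩
      have h1 : (tl v).toWord.length = v.toWord.length - 1 := by
        rw [toWord_tl, List.length_tail]
      rw [h, hL, List.length_cons] at h1
      omega
    have hDQ : D j a ∈ Q := hQD j a haQ
    -- the coefficient computation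
    have hcoef : ∀ u0 : FreeGroup α, (v = u0 ∨ v = FreeGroup.of j * u0) →
        (D j a) u0 = (dd ℤ j v).coeff u0 • a v := by
      intro u0 hu0
      rw [D_apply, Finsupp.sum, Finsupp.finsetSum_apply]
      rw [Finset.sum_eq_single v]
      · rw [tens_apply]
      · intro w hw hwv
        rw [tens_apply]
        have hwQ : w ∈ P.erase v :=
          Finset.mem_erase.2 ⟨hwv, ha w (Finsupp.mem_support_iff.1 hw)⟩
        have : (dd ℤ j w).coeff u0 = 0 := by
          by_contra hcon
          obtain ⟨h1, h2⟩ := dd_supp' ℤ j _ hQ w hwQ u0 hcon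
          rcases hu0 with rfl | h3
          · exact (Finset.mem_erase.1 h1).1 rfl
          · rw [← h3] at h2
            exact (Finset.mem_erase.1 h2).1 rfl
        rw [this, zero_smul]
      · intro hv
        rw [Finsupp.notMem_support_iff.1 hv, tens_zero]
        rfl
    have htl0 : ∀ u0 : FreeGroup α, (v = u0 ∨ v = FreeGroup.of j * u0) →
        (dd ℤ j (tl v)).coeff u0 = 0 := by
      intro u0 hu0
      by_contra hcon
      obtain ⟨h1, h2⟩ := dd_supp' ℤ j _ hQ (tl v) htP u0 hcon
      rcases hu0 with rfl | h3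
      · exact (Finset.mem_erase.1 h1).1 rfl
      · rw [← h3] at h2
        exact (Finset.mem_erase.1 h2).1 rfl
    cases b with
    | true =>
      rw [mk_true] at hveq hnot
      -- D a is supported on P.erase v
      have hD0 : D j a = 0 := by
        refine ih _ hcardQ _ hQ rfl _ (fun u hu => ?_) hDQ
        obtain ⟨h1, h2⟩ := D_supp j P hP a ha u hu
        refine Finset.mem_erase.2 ⟨?_, h1⟩
        rintro rfl
        exact hnot h2
      have h1 := hcoef (tl v) (Or.inr hveq)
      have h2 : (dd ℤ j v).coeff (tl v) = 1 := by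
        conv_lhs => rw [hveq]
        rw [dd_mul, dd_of, if_pos rfl, one_mul, coeff_add, Finsupp.add_apply, coeff_single]
        have h3 := htl0 (tl v) (Or.inr hveq)
        rw [← hveq]
        rw [h3, add_zero, Finsupp.single_eq_same]
      rw [hD0, h2, one_smul] at h1
      exact h1.symm
    | false =>
      rw [mk_false] at hveq hnot
      have hE0 : Lt (FreeGroup.of j) (D j a) = 0 := by
        refine ih _ hcardQ _ hQ rfl _ (fun u hu => ?_) (hQL j _ hDQ)
        rw [Lt_apply] at hu
        obtain ⟨h1, h2⟩ := D_supp j P hP a ha _ hu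
        rw [mul_inv_cancel_left] at h2
        refine Finset.mem_erase.2 ⟨?_, h2⟩
        rintro rfl
        exact hnot h1
      have hD0 : D j a = 0 := by
        have h1 : Lt (FreeGroup.of j)⁻¹ (Lt (FreeGroup.of j) (D j a)) = D j a := by
          rw [← Lt_mul, inv_mul_cancel, Lt_one]
        rw [← h1, hE0, map_zero]
      have h1 := hcoef v (Or.inl rfl)
      have h2 : (dd ℤ j v).coeff v = -1 := by
        have h3 := htl0 v (Or.inl rfl)
        have h4 : dd ℤ j v = - single v 1 + dd ℤ j (tl v) := by
          conv_lhs => rw [hveq]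
          rw [dd_mul, dd_inv, dd_of, if_pos rfl, one_mul, neg_mul, single_mul_single, mul_one,
            ← hveq]
        rw [h4, coeff_add, Finsupp.add_apply, h3, add_zero, coeff_neg, Finsupp.neg_apply,
          coeff_single, Finsupp.single_eq_same]
      rw [hD0, h2] at h1
      have h5 : (-1 : ℤ) • a v = 0 := h1.symm
      rw [neg_smul, one_smul, neg_eq_zero] at h5
      exact h5
  · -- P = {1}
    push Not at hne
    have h1 := hQe a haQ
    have h2 : a = Finsupp.single 1 (a 1) := by
      ext u
      by_cases hu : u = 1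
      · rw [hu, Finsupp.single_eq_same]
      · rw [Finsupp.single_eq_of_ne hu]
        by_contra hcon
        exact hu (hne u (ha u hcon))
    rw [h2, eps_single] at h1
    rw [h2, h1, Finsupp.single_zero]

/-- a group of functions stable under the Fox derivatives and left translations all of whose
members have sum of values zero is zero -/
theorem vanish (Q : AddSubgroup (FreeGroup α →₀ B))
    (hQD : ∀ j, ∀ y ∈ Q, D j y ∈ Q) (hQL : ∀ j, ∀ y ∈ Q, Lt (FreeGroup.of j) y ∈ Q)
    (hQe : ∀ y ∈ Q, eps y = 0) (a : FreeGroup α →₀ B) (ha : a ∈ Q) : a = 0 := by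
  classical
  obtain ⟨P, hP, hS⟩ := exists_cl a.support
  exact vanish_aux Q hQD hQL hQe _ P hP rfl a (fun u hu => hS (Finsupp.mem_support_iff.2 hu)) ha

end

end Run7.h25
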