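import Mathlib
import Pool.Agent.Run7.h25.Fox

set_option autoImplicit false

/-!
Groups with a homomorphism onto the integers with free kernel: the part of the argument which is
uniform in the coefficient ring.
-/

namespace Run7.h25

open MonoidAlgebra

universe u v w

noncomputable section

/-- the data of a free-by-(infinite cyclic) group -/
structure FZ (H : Type u) [Group H] where
  α : Type u
  dec : DecidableEq α
  φ : H →* Multiplicative ℤ
  t : H
  ht : φ t = Multiplicative.ofAdd 1
  ι : FreeGroup α →* H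
  inj : Function.Injective ι
  ran : ∀ h : H, φ h = 1 ↔ ∃ g, ι g = h

attribute [instance] FZ.dec

variable {H : Type u} [Group H] (S : FZ H)

namespace FZ

lemma φι (g : FreeGroup S.α) : S.φ (S.ι g) = 1 := (S.ran _).2 ⟨g, rfl⟩

lemma φt (j : ℤ) : S.φ (S.t ^ j) = Multiplicative.ofAdd j := by
  rw [map_zpow, S.ht, ← ofAdd_zsmul, smul_eq_mul, mul_one]

lemma exists_rep (h : H) : ∃ (g : FreeGroup S.α) (j : ℤ), h = S.ι g * S.t ^ j := by
  obtain ⟨g, hg⟩ := (S.ran (h * (S.t ^ (Multiplicative.toAdd (S.φ h)))⁻¹)).1 (by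
    rw [map_mul, map_inv, S.φt, ofAdd_toAdd, mul_inv_cancel])
  exact ⟨g, Multiplicative.toAdd (S.φ h), by rw [hg, inv_mul_cancel_right]⟩

lemma φ_surj : Function.Surjective S.φ := by
  intro x
  exact ⟨S.t ^ (Multiplicative.toAdd x), by rw [S.φt]; rfl⟩

section cmp

variable {B : Type v} [AddCommGroup B]

/-- component of a function on `H` along the coset `F t ^ j` -/
def cmp (j : ℤ) : (H →₀ B) →+ (FreeGroup S.α →₀ B) :=
  Finsupp.comapDomain.addMonoidHom (f := fun g => S.ι g * S.t ^ j)
    (fun _ _ h => S.inj (mul_right_cancel h))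

lemma cmp_apply (j : ℤ) (y : H →₀ B) (g : FreeGroup S.α) :
    S.cmp j y g = y (S.ι g * S.t ^ j) := rfl

lemma cmp_Lt (j : ℤ) (g : FreeGroup S.α) (y : H →₀ B) :
    S.cmp j (Lt (S.ι g) y) = Lt g (S.cmp j y) := by
  ext h
  rw [cmp_apply, Lt_apply, Lt_apply, cmp_apply, map_mul S.ι, map_inv S.ι, mul_assoc]

lemma cmp_inj (y : H →₀ B) (h : ∀ j, S.cmp j y = 0) : y = 0 := by
  ext x
  obtain ⟨g, j, rfl⟩ := S.exists_rep x
  rw [← cmp_apply, h j]
  rfl

end cmp

section ring

variable (k : Type w) [CommRing k]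

/-- the free generators in the group ring -/
def gs (i : S.α) : MonoidAlgebra k H := single (S.ι (FreeGroup.of i)) 1

variable {k}

lemma coeff_gs_mul (i : S.α) (x : MonoidAlgebra k H) :
    (S.gs k i * x).coeff = Lt (S.ι (FreeGroup.of i)) x.coeff := by
  ext h
  rw [gs, coeff_single_mul_apply, one_mul, Lt_apply]

variable (k) (M : Type v) [AddCommGroup M] [Module (MonoidAlgebra k H) M]

/-- the map `(z_i) ↦ ∑ (s_i - 1) z_i` -/
def Psi : (S.α →₀ M) →+ M :=
  Finsupp.liftAddHom (fun i => DistribSMul.toAddMonoidHom M (S.gs k i - 1))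

variable {M}

lemma Psi_apply (z : S.α →₀ M) : S.Psi k M z = z.sum (fun i x => (S.gs k i - 1) • x) := by
  rfl

lemma Psi_single (i : S.α) (x : M) :
    S.Psi k M (Finsupp.single i x) = (S.gs k i - 1) • x := by
  rw [Psi_apply, Finsupp.sum_single_index (by rw [smul_zero])]

variable {M' : Type*} [AddCommGroup M'] [Module (MonoidAlgebra k H) M']

lemma Psi_map (f : M →ₗ[MonoidAlgebra k H] M') (z : S.α →₀ M) :
    f (S.Psi k M z) = S.Psi k M' (z.mapRange f (map_zero f)) := by
  induction z using Finsupp.induction_linear with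
  | zero => simp
  | add a b ha hb =>
    rw [map_add, map_add, ha, hb, ← map_add, ← Finsupp.mapRange_add (f := f) (fun x y => map_add f x y)]
  | single i x =>
    rw [Psi_single, map_smul, Finsupp.mapRange_single, Psi_single]

/-- uniqueness in the group ring -/
lemma Psi_inj_ring (z : S.α →₀ MonoidAlgebra k H) (hz : S.Psi k _ z = 0) : z = 0 := by
  have h1 : ∀ j : ℤ, ∀ i ∈ z.support, S.cmp j (z i).coeff = 0 := by
    intro j
    apply uniq z.support (fun i => S.cmp j (z i).coeff)
    have h2 := congrArg (fun x : MonoidAlgebra k H => S.cmp j x.coeff) hz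
    simp only [Psi_apply, Finsupp.sum, coeff_sum, map_sum, coeff_zero, map_zero] at h2
    rw [← h2]
    apply Finset.sum_congr rfl
    intro i _
    rw [smul_eq_mul, sub_mul, one_mul, coeff_sub, map_sub, coeff_gs_mul, cmp_Lt]
  ext1 i
  by_cases hi : i ∈ z.support
  · have h3 : (z i).coeff = 0 := S.cmp_inj _ (fun j => h1 j i hi)
    rw [Finsupp.zero_apply]
    exact coeff_injective h3
  · rw [Finsupp.notMem_support_iff.1 hi]
    rfl

/-- uniqueness in free modules -/
lemma Psi_inj {n : ℕ} (z : S.α →₀ (Fin n → MonoidAlgebra k H)) (hz : S.Psi k _ z = 0) :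
    z = 0 := by
  ext1 i
  funext c
  have h1 := congrFun hz c
  have h2 := S.Psi_map k (LinearMap.proj (R := MonoidAlgebra k H)
    (φ := fun _ : Fin n => MonoidAlgebra k H) c) z
  rw [LinearMap.proj_apply, h1] at h2
  have h3 := S.Psi_inj_ring k _ h2.symm
  have h4 := DFunLike.congr_fun h3 i
  rw [Finsupp.mapRange_apply] at h4
  exact h4

lemma of_sub_mem_range (g : FreeGroup S.α) :
    ∀ x : M, (single (S.ι g) 1 : MonoidAlgebra k H) • x - x ∈ (S.Psi k M).range := by
  induction g using FreeGroup.induction_on with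
  | C1 =>
    intro x
    rw [map_one, ← one_def, one_smul, sub_self]
    exact zero_mem _
  | of i =>
    intro x
    refine ⟨Finsupp.single i x, ?_⟩
    rw [Psi_single, sub_smul, one_smul]
    rfl
  | inv_of i h =>
    intro x
    have h1 := h ((single (S.ι (FreeGroup.of i)⁻¹) 1 : MonoidAlgebra k H) • x)
    rw [← mul_smul, single_mul_single, ← map_mul, mul_inv_cancel, map_one, one_mul, ← one_def,
      one_smul] at h1
    have h2 := neg_mem h1
    rwa [neg_sub] at h2
  | mul g g' h h' =>
    intro x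
    have h1 := h ((single (S.ι g') 1 : MonoidAlgebra k H) • x)
    have h2 := add_mem h1 (h' x)
    rw [← mul_smul, single_mul_single, ← map_mul, one_mul] at h2
    rwa [sub_add_sub_cancel] at h2

/-- the section of `φ` -/
def sec (j : Multiplicative ℤ) : H := S.t ^ (Multiplicative.toAdd j)

lemma exists_rep' (h : H) : ∃ g : FreeGroup S.α, h = S.ι g * S.sec (S.φ h) := by
  obtain ⟨g, j, rfl⟩ := S.exists_rep h
  refine ⟨g, ?_⟩
  rw [map_mul, φι, one_mul, φt]
  rfl

lemma sub_mem_range (x : MonoidAlgebra k H) :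
    x - mapDomain S.sec (mapDomain S.φ x) ∈ (S.Psi k (MonoidAlgebra k H)).range := by
  induction x using MonoidAlgebra.induction_linear with
  | zero => simp
  | add a b ha hb =>
    rw [mapDomain_add, mapDomain_add]
    have := add_mem ha hb
    convert this using 1
    abel
  | single h r =>
    rw [mapDomain_single, mapDomain_single]
    obtain ⟨g, hg⟩ := S.exists_rep' h
    have := S.of_sub_mem_range k g (single (S.sec (S.φ h)) r : MonoidAlgebra k H)
    rw [smul_eq_mul, single_mul_single, one_mul, ← hg] at this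
    exact this

/-- existence in the group ring -/
lemma exists_ring (x : MonoidAlgebra k H) (hx : mapDomain S.φ x = 0) :
    x ∈ (S.Psi k (MonoidAlgebra k H)).range := by
  have := S.sub_mem_range k x
  rwa [hx, mapDomain_zero, sub_zero] at this

/-- existence in free modules -/
lemma exists_free {m : ℕ} (x : Fin m → MonoidAlgebra k H) (hx : ∀ c, mapDomain S.φ (x c) = 0) :
    x ∈ (S.Psi k (Fin m → MonoidAlgebra k H)).range := by
  have h1 : x = ∑ c, LinearMap.single (MonoidAlgebra k H) (fun _ => MonoidAlgebra k H) c (x c) := by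
    simp only [LinearMap.coe_single]
    rw [Finset.univ_sum_single]
  rw [h1]
  apply sum_mem
  intro c _
  obtain ⟨z, hz⟩ := S.exists_ring k (x c) (hx c)
  rw [← hz, S.Psi_map k]
  exact ⟨_, rfl⟩

/-- the kernel of a map of free modules meets `I_F R^m` in `I_F K` -/
lemma ker_aug {m n : ℕ} (f : (Fin m → MonoidAlgebra k H) →ₗ[MonoidAlgebra k H]
    (Fin n → MonoidAlgebra k H)) (x : Fin m → MonoidAlgebra k H) (hx : f x = 0)
    (hx' : ∀ c, mapDomain S.φ (x c) = 0) :
    ∃ z : S.α →₀ (Fin m → MonoidAlgebra k H), S.Psi k _ z = x ∧ ∀ i, f (z i) = 0 := by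
  obtain ⟨z, hz⟩ := S.exists_free k x hx'
  refine ⟨z, hz, ?_⟩
  have h1 := S.Psi_map k f z
  rw [hz, hx] at h1
  have h2 := S.Psi_inj k _ h1.symm
  intro i
  have h3 := DFunLike.congr_fun h2 i
  rw [Finsupp.mapRange_apply] at h3
  exact h3

end ring

/-- vanishing of equivariant maps to functions -/
lemma hom_vanish {B : Type v} [AddCommGroup B] (k : Type w) [CommRing k] {M : Type*}
    [AddCommGroup M] [Module (MonoidAlgebra k H) M] (h : M →+ (H →₀ B))
    (heq : ∀ (g : H) (x : M), h ((single g 1 : MonoidAlgebra k H) • x) = Lt g (h x))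
    (P : M → Prop) (hP : ∀ x, P x → h x = 0)
    (hM : ∀ x : M, ∃ y, P y ∧ ∃ z : S.α →₀ M, x = y + S.Psi k M z) (x : M) : h x = 0 := by
  apply S.cmp_inj
  intro j
  -- the composite
  set q : M →+ (FreeGroup S.α →₀ B) := (S.cmp j).comp h with hq
  have hqe : ∀ (g : FreeGroup S.α) (x : M),
      q ((single (S.ι g) 1 : MonoidAlgebra k H) • x) = Lt g (q x) := by
    intro g x
    rw [hq, AddMonoidHom.comp_apply, heq, cmp_Lt]
    rfl
  have hqPsi : ∀ z : S.α →₀ M, q (S.Psi k M z) =
      ∑ i ∈ z.support, (Lt (FreeGroup.of i) (q (z i)) - q (z i)) := by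
    intro z
    rw [Psi_apply, Finsupp.sum, map_sum]
    apply Finset.sum_congr rfl
    intro i _
    rw [sub_smul, one_smul, map_sub, gs, hqe]
  have hrep : ∀ x : M, ∃ z : S.α →₀ M, q x =
      ∑ i ∈ z.support, (Lt (FreeGroup.of i) (q (z i)) - q (z i)) := by
    intro x
    obtain ⟨y, hy, z, hz⟩ := hM x
    refine ⟨z, ?_⟩
    rw [← hqPsi z, hz, map_add]
    have : q y = 0 := by
      rw [hq, AddMonoidHom.comp_apply, hP y hy, map_zero]
    rw [this, zero_add]
  have key := vanish q.range
    (by
      rintro i _ ⟨x, rfl⟩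
      obtain ⟨z, hz⟩ := hrep x
      rw [hz, map_sum]
      have e2 : ∀ j ∈ z.support, D i (Lt (FreeGroup.of j) (q (z j)) - q (z j)) =
          if j = i then q (z j) else 0 := by
        intro j _
        rw [map_sub, D_Lt, add_sub_cancel_right]
      rw [Finset.sum_congr rfl e2, Finset.sum_ite_eq' z.support i (fun j => q (z j))]
      split_ifs
      · exact ⟨_, rfl⟩
      · exact zero_mem _)
    (by
      rintro i _ ⟨x, rfl⟩
      exact ⟨_, hqe (FreeGroup.of i) x⟩)
    (by
      rintro _ ⟨x, rfl⟩
      obtain ⟨z, hz⟩ := hrep x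
      rw [hz, map_sum]
      apply Finset.sum_eq_zero
      intro i _
      rw [map_sub, eps_Lt, sub_self])
  exact key _ ⟨x, rfl⟩

section noeth

variable (k : Type w) [CommRing k] [IsNoetherianRing k]

instance : IsNoetherianRing (MonoidAlgebra k (Multiplicative ℤ)) :=
  Algebra.FiniteType.isNoetherianRing k _

/-- reduction to the group ring of the integers, in free modules -/
def red (m : ℕ) : (Fin m → MonoidAlgebra k H) →ₛₗ[mapDomainRingHom k S.φ]
    (Fin m → MonoidAlgebra k (Multiplicative ℤ)) where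
  toFun x c := mapDomain S.φ (x c)
  map_add' x y := by
    funext c
    rw [Pi.add_apply, mapDomain_add]
    rfl
  map_smul' r x := by
    funext c
    rw [Pi.smul_apply, Pi.smul_apply, smul_eq_mul, smul_eq_mul]
    exact map_mul (mapDomainRingHom k S.φ) r (x c)

lemma mapDomain_surj : Function.Surjective (mapDomainRingHom k S.φ) := by
  intro x
  refine ⟨mapDomain S.sec x, ?_⟩
  show mapDomain S.φ (mapDomain S.sec x) = x
  induction x using MonoidAlgebra.induction_linear with
  | zero => simp
  | add a b ha hb => rw [mapDomain_add, mapDomain_add, ha, hb]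
  | single h r =>
    rw [mapDomain_single, mapDomain_single]
    congr 1
    rw [sec, φt]
    rfl

/-- the kernel of a map of free modules is finitely generated modulo `I_F K` -/
lemma ker_mod {m n : ℕ} (f : (Fin m → MonoidAlgebra k H) →ₗ[MonoidAlgebra k H]
    (Fin n → MonoidAlgebra k H)) :
    ∃ G : Finset (Fin m → MonoidAlgebra k H), (∀ x ∈ G, f x = 0) ∧
      ∀ x, f x = 0 → ∃ y ∈ Submodule.span (MonoidAlgebra k H) (G : Set _),
        ∃ z : S.α →₀ (Fin m → MonoidAlgebra k H), (∀ i, f (z i) = 0) ∧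
          x = y + S.Psi k _ z := by
  classical
  have : RingHomSurjective (mapDomainRingHom k S.φ) := ⟨S.mapDomain_surj k⟩
  obtain ⟨G', hG'⟩ := IsNoetherian.noetherian ((LinearMap.ker f).map (S.red k m))
  have h1 : ∀ y ∈ G', ∃ x, f x = 0 ∧ S.red k m x = y := by
    intro y hy
    have : y ∈ (LinearMap.ker f).map (S.red k m) := by
      rw [← hG']
      exact Submodule.subset_span hy
    obtain ⟨x, hx, hxy⟩ := this
    exact ⟨x, hx, hxy⟩
  choose! l hl1 hl2 using h1
  refine ⟨G'.image l, ?_, ?_⟩
  · intro x hx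
    obtain ⟨y, hy, rfl⟩ := Finset.mem_image.1 hx
    exact hl1 y hy
  · intro x hx
    have h2 : S.red k m x ∈ (Submodule.span (MonoidAlgebra k H)
        ((G'.image l : Finset _) : Set (Fin m → MonoidAlgebra k H))).map (S.red k m) := by
      rw [Submodule.map_span]
      have h3 : S.red k m x ∈ Submodule.span (MonoidAlgebra k (Multiplicative ℤ))
          (G' : Set (Fin m → MonoidAlgebra k (Multiplicative ℤ))) := by
        rw [hG']
        exact ⟨x, hx, rfl⟩
      refine Submodule.span_mono ?_ h3
      intro y hy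
      refine ⟨l y, ?_, hl2 y hy⟩
      rw [Finset.coe_image]
      exact ⟨y, hy, rfl⟩
    obtain ⟨y, hy, hyx⟩ := h2
    refine ⟨y, hy, ?_⟩
    have hfy : f y = 0 := by
      have : Submodule.span (MonoidAlgebra k H)
        ((G'.image l : Finset _) : Set (Fin m → MonoidAlgebra k H)) ≤ LinearMap.ker f := by
        rw [Submodule.span_le]
        intro w hw
        rw [Finset.coe_image] at hw
        obtain ⟨y, hy, rfl⟩ := hw
        exact hl1 y hy
      exact this hy
    obtain ⟨z, hz1, hz2⟩ := S.ker_aug k f (x - y) (by rw [map_sub, hx, hfy, sub_zero]) (by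
      intro c
      have h4 : S.red k m (x - y) = 0 := by rw [map_sub, hyx, sub_self]
      exact congrFun h4 c)
    exact ⟨z, hz2, by rw [hz1, add_sub_cancel]⟩

end noeth

end FZ

end

end Run7.h25
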