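import Mathlib
import Pool.Agent.Run7.h25.Sys

set_option autoImplicit false

/-!
Kernels of maps between finitely generated free modules over the group algebra (over a field)
of a free-by-(infinite cyclic) group are projective.
-/

namespace Run7.h25

open MonoidAlgebra CategoryTheory

universe u v w

noncomputable section

section tw

variable (k : Type) [Field k] {H : Type u} [Group H]

/-- an additive map compatible with monomials is linear -/
def mkLin {A A' : Type*} [AddCommGroup A] [AddCommGroup A'] [Module (MonoidAlgebra k H) A]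
    [Module (MonoidAlgebra k H) A'] (f : A →+ A')
    (hf : ∀ (h : H) (c : k) (x : A), f ((single h c : MonoidAlgebra k H) • x) =
      (single h c : MonoidAlgebra k H) • f x) : A →ₗ[MonoidAlgebra k H] A' where
  toFun := f
  map_add' := map_add f
  map_smul' r x := by
    rw [RingHom.id_apply]
    induction r using MonoidAlgebra.induction_linear with
    | zero => simp
    | add a b ha hb => rw [add_smul, map_add, ha, hb, add_smul]
    | single h c => exact hf h c x

variable (Ω : Type v) [MulAction H Ω] (N : Type u) [AddCommGroup N] [Module k N]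
  [Module (MonoidAlgebra k H) N] [IsScalarTower k (MonoidAlgebra k H) N]

/-- action of a group element -/
def gAct (h : H) : N →ₗ[k] N where
  toFun x := (single h (1 : k) : MonoidAlgebra k H) • x
  map_add' := smul_add _
  map_smul' c x := by
    rw [RingHom.id_apply, ← smul_assoc c]
    have : c • x = (c • (1 : MonoidAlgebra k H)) • x := by rw [smul_assoc, one_smul]
    rw [this, ← mul_smul, mul_smul_comm, mul_one]

lemma gAct_apply (h : H) (x : N) : gAct k N h x = (single h (1 : k) : MonoidAlgebra k H) • x := rfl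

/-- the twisted action as a homomorphism -/
def twRho : H →* ((Ω →₀ N) →ₗ[k] (Ω →₀ N)) where
  toFun h := (Finsupp.lmapDomain N k (fun ω : Ω => h • ω)).comp
    (Finsupp.mapRange.linearMap (gAct k N h))
  map_one' := by
    ext ω n : 2
    simp [gAct_apply, ← one_def]
  map_mul' g h := by
    ext ω n : 2
    simp only [LinearMap.coe_comp, Function.comp_apply, Finsupp.lsingle_apply,
      Finsupp.mapRange.linearMap_apply, Finsupp.mapRange_single, gAct_apply,
      Finsupp.lmapDomain_apply, Finsupp.mapDomain_single, Module.End.mul_apply]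
    rw [mul_smul, ← mul_smul (single g (1 : k)), single_mul_single, one_mul]

lemma twRho_single (h : H) (ω : Ω) (n : N) : twRho k Ω N h (Finsupp.single ω n) =
    Finsupp.single (h • ω) ((single h (1 : k) : MonoidAlgebra k H) • n) := by
  simp [twRho, gAct_apply]

/-- functions `Ω →₀ N` with the twisted action -/
def Tw (_k : Type) (_H : Type u) (Ω : Type v) (N : Type u) [AddCommGroup N] : Type (max u v) :=
  Ω →₀ N

instance : AddCommGroup (Tw k H Ω N) := inferInstanceAs (AddCommGroup (Ω →₀ N))
instance : Module k (Tw k H Ω N) := inferInstanceAs (Module k (Ω →₀ N))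

/-- the action of the group ring -/
def twHom : MonoidAlgebra k H →ₐ[k] Module.End k (Ω →₀ N) :=
  MonoidAlgebra.lift k (Module.End k (Ω →₀ N)) H (twRho k Ω N)

instance : Module (MonoidAlgebra k H) (Tw k H Ω N) :=
  Module.compHom (Ω →₀ N) (twHom k Ω N).toRingHom

variable {Ω N}

/-- elementary functions -/
def tws (ω : Ω) (n : N) : Tw k H Ω N := (Finsupp.single ω n : Ω →₀ N)

lemma tws_add (ω : Ω) (n n' : N) : (tws k ω (n + n') : Tw k H Ω N) = tws k ω n + tws k ω n' :=
  Finsupp.single_add _ _ _

lemma tws_zero (ω : Ω) : (tws k ω 0 : Tw k H Ω N) = 0 :=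
  Finsupp.single_zero _

lemma tws_smul (c : k) (ω : Ω) (n : N) :
    (tws k ω (c • n) : Tw k H Ω N) = c • tws k ω n :=
  (Finsupp.smul_single c ω n).symm

lemma smul_tws (h : H) (c : k) (ω : Ω) (n : N) :
    (single h c : MonoidAlgebra k H) • (tws k ω n : Tw k H Ω N) =
      tws k (h • ω) ((single h c : MonoidAlgebra k H) • n) := by
  show twHom k Ω N (single h c) (Finsupp.single ω n) = Finsupp.single (h • ω) _
  rw [twHom, lift_single, LinearMap.smul_apply, twRho_single, Finsupp.smul_single, ← smul_assoc,
    smul_single, smul_eq_mul, mul_one]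

instance : IsScalarTower k (MonoidAlgebra k H) (Tw k H Ω N) where
  smul_assoc c r y := by
    show twHom k Ω N (c • r) y = c • (twHom k Ω N r y)
    rw [map_smul]
    rfl

lemma tw_induction {P : Tw k H Ω N → Prop} (x : Tw k H Ω N) (h0 : P 0)
    (ha : ∀ x y, P x → P y → P (x + y)) (hs : ∀ ω n, P (tws k ω n)) : P x :=
  Finsupp.induction_linear (motive := P) x h0 ha hs

variable {A' : Type*} [AddCommGroup A'] [Module (MonoidAlgebra k H) A']

/-- additive maps out of a twisted module -/
def twAdd (F : Ω → N →+ A') : Tw k H Ω N →+ A' :=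
  (Finsupp.liftAddHom F : (Ω →₀ N) →+ A')

omit [Module (MonoidAlgebra k H) A'] in
lemma twAdd_tws (F : Ω → N →+ A') (ω : Ω) (n : N) :
    (twAdd k F : Tw k H Ω N →+ A') (tws k ω n) = F ω n :=
  Finsupp.liftAddHom_apply_single F ω n

/-- linear maps out of a twisted module -/
def twLin (F : Ω → N →+ A')
    (hF : ∀ (h : H) (c : k) (ω : Ω) (n : N),
      F (h • ω) ((single h c : MonoidAlgebra k H) • n) =
        (single h c : MonoidAlgebra k H) • F ω n) :
    Tw k H Ω N →ₗ[MonoidAlgebra k H] A' :=
  mkLin k (twAdd k F) (by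
    intro h c x
    induction x using tw_induction with
    | h0 => rw [smul_zero, map_zero, smul_zero]
    | ha x y hx hy => rw [smul_add, map_add, hx, hy, map_add, smul_add]
    | hs ω n => rw [smul_tws, twAdd_tws, twAdd_tws, hF])

lemma twLin_tws (F : Ω → N →+ A')
    (hF : ∀ (h : H) (c : k) (ω : Ω) (n : N),
      F (h • ω) ((single h c : MonoidAlgebra k H) • n) =
        (single h c : MonoidAlgebra k H) • F ω n) (ω : Ω) (n : N) :
    twLin k F hF (tws k ω n) = F ω n :=
  twAdd_tws k F ω n

/-- twisted modules on free orbits are projective -/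
lemma tw_proj (X : Type u) (b : X × H ≃ Ω)
    (hb : ∀ (h : H) (x : X) (ω : H), b (x, ω * h⁻¹) = h • b (x, ω)) :
    Module.Projective (MonoidAlgebra k H) (Tw k H Ω N) := by
  apply Module.Projective.of_lifting_property''
  intro f hf
  obtain ⟨s, hs⟩ := LinearMap.exists_rightInverse_of_surjective (f.restrictScalars k)
    (LinearMap.range_eq_top.2 hf)
  have hs' : ∀ y, f (s y) = y := fun y => LinearMap.congr_fun hs y
  let F : Ω → N →+ (Tw k H Ω N →₀ MonoidAlgebra k H) := fun ω =>
    { toFun := fun n => (single (b.symm ω).2⁻¹ 1 : MonoidAlgebra k H) •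
        s (tws k (b ((b.symm ω).1, 1)) ((single (b.symm ω).2 1 : MonoidAlgebra k H) • n))
      map_zero' := by rw [smul_zero, tws_zero, map_zero, smul_zero]
      map_add' := by
        intro n n'
        rw [smul_add, tws_add, map_add, smul_add] }
  have hF : ∀ (ω : Ω) (n : N), F ω n = (single (b.symm ω).2⁻¹ 1 : MonoidAlgebra k H) •
        s (tws k (b ((b.symm ω).1, 1)) ((single (b.symm ω).2 1 : MonoidAlgebra k H) • n)) :=
    fun _ _ => rfl
  refine ⟨twLin k F ?_, ?_⟩
  · intro h c ω n
    obtain ⟨⟨x, g⟩, rfl⟩ := b.surjective ω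
    rw [hF, hF, ← hb, Equiv.symm_apply_apply, Equiv.symm_apply_apply]
    dsimp only
    rw [← mul_smul, single_mul_single, one_mul, inv_mul_cancel_right, ← mul_smul,
      single_mul_single, mul_one, mul_inv_rev, inv_inv]
    have : (single g c : MonoidAlgebra k H) = c • single g 1 := by
      rw [smul_single, smul_eq_mul, mul_one]
    rw [this, smul_assoc, tws_smul, map_smul]
    have h2 : (single (h * g⁻¹) c : MonoidAlgebra k H) = c • single (h * g⁻¹) 1 := by
      rw [smul_single, smul_eq_mul, mul_one]
    rw [h2, smul_assoc, smul_comm]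
  · apply LinearMap.ext
    intro y
    rw [LinearMap.comp_apply, LinearMap.id_apply]
    induction y using tw_induction with
    | h0 => rw [map_zero, map_zero]
    | ha x y hx hy => rw [map_add, map_add, hx, hy]
    | hs ω n =>
      rw [twLin_tws, hF, map_smul, hs', smul_tws]
      obtain ⟨⟨x, g⟩, rfl⟩ := b.surjective ω
      rw [Equiv.symm_apply_apply]
      dsimp only
      rw [← hb, inv_inv, one_mul, ← mul_smul, single_mul_single, inv_mul_cancel, one_mul,
        ← one_def, one_smul]

end tw

section seq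

variable {H : Type u} [Group H] (S : FZ H)

section B

variable {B : Type v} [AddCommGroup B]

/-- the map `(z_i) ↦ ∑ (s_i - 1) z_i` on functions -/
def FZ.PsiB : (S.α →₀ (H →₀ B)) →+ (H →₀ B) :=
  Finsupp.liftAddHom (fun i =>
    (Lt (S.ι (FreeGroup.of i)) : (H →₀ B) →+ (H →₀ B)) - AddMonoidHom.id _)

lemma FZ.PsiB_single (i : S.α) (u : H →₀ B) :
    S.PsiB (Finsupp.single i u) = Lt (S.ι (FreeGroup.of i)) u - u := by
  unfold FZ.PsiB
  rw [Finsupp.liftAddHom_apply_single]
  rfl

lemma FZ.PsiB_apply (z : S.α →₀ (H →₀ B)) :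
    S.PsiB z = ∑ i ∈ z.support, (Lt (S.ι (FreeGroup.of i)) (z i) - z i) := rfl

lemma FZ.PsiB_inj (z : S.α →₀ (H →₀ B)) (hz : S.PsiB z = 0) : z = 0 := by
  have h1 : ∀ j : ℤ, ∀ i ∈ z.support, S.cmp j (z i) = 0 := by
    intro j
    apply uniq z.support (fun i => S.cmp j (z i))
    have h2 := congrArg (S.cmp j) hz
    rw [S.PsiB_apply, map_sum, map_zero] at h2
    rw [← h2]
    apply Finset.sum_congr rfl
    intro i _
    rw [map_sub, S.cmp_Lt]
  ext1 i
  by_cases hi : i ∈ z.support
  · exact S.cmp_inj _ (fun j => h1 j i hi)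
  · rw [Finsupp.notMem_support_iff.1 hi]
    rfl

lemma FZ.of_sub_mem_rangeB (g : FreeGroup S.α) :
    ∀ x : H →₀ B, Lt (S.ι g) x - x ∈ (S.PsiB (B := B)).range := by
  induction g using FreeGroup.induction_on with
  | C1 =>
    intro x
    rw [map_one, Lt_one, sub_self]
    exact zero_mem _
  | of i =>
    intro x
    exact ⟨Finsupp.single i x, S.PsiB_single i x⟩
  | inv_of i h =>
    intro x
    have h1 := h (Lt (S.ι (FreeGroup.of i)⁻¹) x)
    rw [← Lt_mul, ← map_mul, mul_inv_cancel, map_one, Lt_one] at h1
    have h2 := neg_mem h1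
    rwa [neg_sub] at h2
  | mul g g' h h' =>
    intro x
    have h1 := h (Lt (S.ι g') x)
    have h2 := add_mem h1 (h' x)
    rw [← Lt_mul, ← map_mul] at h2
    rwa [sub_add_sub_cancel] at h2

lemma FZ.sub_mem_rangeB (x : H →₀ B) :
    x - Finsupp.mapDomain S.sec (Finsupp.mapDomain S.φ x) ∈ (S.PsiB (B := B)).range := by
  induction x using Finsupp.induction_linear with
  | zero => simp
  | add a b ha hb =>
    rw [Finsupp.mapDomain_add, Finsupp.mapDomain_add]
    have := add_mem ha hb
    convert this using 1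
    abel
  | single h r =>
    rw [Finsupp.mapDomain_single, Finsupp.mapDomain_single]
    obtain ⟨g, hg⟩ := S.exists_rep' h
    have := S.of_sub_mem_rangeB g (Finsupp.single (S.sec (S.φ h)) r)
    rw [Lt_single, ← hg] at this
    exact this

lemma FZ.PsiB_range (x : H →₀ B) (hx : Finsupp.mapDomain S.φ x = 0) :
    x ∈ (S.PsiB (B := B)).range := by
  have := S.sub_mem_rangeB x
  rwa [hx, Finsupp.mapDomain_zero, sub_zero] at this

end B

/-- `H` with the action by inverse right multiplication -/
def RO (H : Type u) : Type u := H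

/-- the element of `RO H` given by an element of `H` -/
def RO.mk {H : Type u} (h : H) : RO H := h
/-- the element of `H` given by an element of `RO H` -/
def RO.g {H : Type u} (h : RO H) : H := h

instance : MulAction H (RO H) where
  smul h ω := RO.mk (ω.g * h⁻¹)
  one_smul ω := by
    show RO.mk (ω.g * 1⁻¹) = ω
    rw [inv_one, mul_one]
    rfl
  mul_smul g h ω := by
    show RO.mk (ω.g * (g * h)⁻¹) = RO.mk (ω.g * h⁻¹ * g⁻¹)
    rw [mul_inv_rev, mul_assoc]

lemma RO.smul_g (h : H) (ω : RO H) : (h • ω).g = ω.g * h⁻¹ := rfl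
lemma RO.smul_mk (h g : H) : h • RO.mk g = RO.mk (g * h⁻¹) := rfl

/-- copies of `RO H` -/
def XO (X H : Type u) : Type u := X × H

/-- constructor -/
def XO.mk {X H : Type u} (x : X) (h : H) : XO X H := (x, h)
/-- first component -/
def XO.x {X H : Type u} (ω : XO X H) : X := Prod.fst ω
/-- second component -/
def XO.g {X H : Type u} (ω : XO X H) : H := Prod.snd ω

instance (X : Type u) : MulAction H (XO X H) where
  smul h ω := XO.mk ω.x (ω.g * h⁻¹)
  one_smul ω := by
    show XO.mk ω.x (ω.g * 1⁻¹) = ω
    rw [inv_one, mul_one]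
    rfl
  mul_smul g h ω := by
    show XO.mk ω.x (ω.g * (g * h)⁻¹) = XO.mk ω.x (ω.g * h⁻¹ * g⁻¹)
    rw [mul_inv_rev, mul_assoc]

lemma XO.smul_x {X : Type u} (h : H) (ω : XO X H) : (h • ω).x = ω.x := rfl
lemma XO.smul_g {X : Type u} (h : H) (ω : XO X H) : (h • ω).g = ω.g * h⁻¹ := rfl

/-- the integers with the action through `φ` -/
def ZO {H : Type u} [Group H] (_S : FZ H) : Type := Multiplicative ℤ

variable {S} in
/-- constructor -/
def ZO.mk (j : Multiplicative ℤ) : ZO S := j
variable {S} in
/-- the underlying integer -/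
def ZO.g (j : ZO S) : Multiplicative ℤ := j

instance : MulAction H (ZO S) where
  smul h j := ZO.mk (j.g * (S.φ h)⁻¹)
  one_smul ω := by
    show ZO.mk (ω.g * (S.φ 1)⁻¹) = ω
    rw [map_one, inv_one, mul_one]
    rfl
  mul_smul g h ω := by
    show ZO.mk (ω.g * (S.φ (g * h))⁻¹) = ZO.mk (ω.g * (S.φ h)⁻¹ * (S.φ g)⁻¹)
    rw [map_mul, mul_inv_rev, mul_assoc]

lemma ZO.smul_g (h : H) (ω : ZO S) : (h • ω).g = ω.g * (S.φ h)⁻¹ := rfl
lemma ZO.smul_mk (h : H) (j : Multiplicative ℤ) :
    h • (ZO.mk j : ZO S) = ZO.mk (j * (S.φ h)⁻¹) := rfl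

variable (k : Type) [Field k]
variable (N : Type u) [AddCommGroup N] [Module k N]
  [Module (MonoidAlgebra k H) N] [IsScalarTower k (MonoidAlgebra k H) N]

instance ro_proj : Module.Projective (MonoidAlgebra k H) (Tw k H (RO H) N) :=
  tw_proj k (Ω := RO H) (N := N) PUnit.{u + 1} (Equiv.punitProd H) (by
    intro h x ω
    rfl)

instance xo_proj (X : Type u) : Module.Projective (MonoidAlgebra k H) (Tw k H (XO X H) N) :=
  tw_proj k (Ω := XO X H) (N := N) X (Equiv.refl _) (by
    intro h x ω
    rfl)

/-- first map -/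
def dd1 : Tw k H (XO S.α H) N →ₗ[MonoidAlgebra k H] Tw k H (RO H) N :=
  twLin k (Ω := XO S.α H) (N := N)
    (fun ω =>
      { toFun := fun n => tws k (RO.mk (S.ι (FreeGroup.of ω.x) * ω.g)) n -
          tws k (RO.mk ω.g) n
        map_zero' := by rw [tws_zero, tws_zero, sub_zero]
        map_add' := by
          intro a b
          rw [tws_add, tws_add]
          abel })
    (by
      intro h c ω n
      show tws k (RO.mk (S.ι (FreeGroup.of (h • ω).x) * (h • ω).g)) _ -
          tws k (RO.mk (h • ω).g) _ = _ • (tws k _ _ - tws k _ _)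
      rw [smul_sub, smul_tws, smul_tws, RO.smul_mk, RO.smul_mk, XO.smul_x, XO.smul_g, mul_assoc])

lemma dd1_tws (i : S.α) (ω : H) (n : N) :
    dd1 S k N (tws k (XO.mk i ω) n) =
      tws k (RO.mk (S.ι (FreeGroup.of i) * ω)) n - tws k (RO.mk ω) n :=
  twLin_tws k _ _ _ _

/-- second map -/
def dd2 : Tw k H (RO H) N →ₗ[MonoidAlgebra k H] Tw k H (ZO S) N :=
  twLin k (Ω := RO H) (N := N)
    (fun ω =>
      { toFun := fun n => tws k (ZO.mk (S.φ ω.g)) n
        map_zero' := by rw [tws_zero]
        map_add' := by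
          intro a b
          rw [tws_add] })
    (by
      intro h c ω n
      show tws k (ZO.mk (S.φ (h • ω).g)) _ = _ • tws k _ _
      rw [smul_tws, RO.smul_g, map_mul, map_inv, ZO.smul_mk])

lemma dd2_tws (ω : H) (n : N) :
    dd2 S k N (tws k (RO.mk ω) n) = tws k (ZO.mk (S.φ ω)) n :=
  twLin_tws k _ _ _ _

/-- shift minus identity -/
def dd3 : Tw k H (ZO S) N →ₗ[MonoidAlgebra k H] Tw k H (ZO S) N :=
  twLin k (Ω := ZO S) (N := N)
    (fun j =>
      { toFun := fun n => tws k (ZO.mk (Multiplicative.ofAdd 1 * j.g)) n - tws k (ZO.mk j.g) n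
        map_zero' := by rw [tws_zero, tws_zero, sub_zero]
        map_add' := by
          intro a b
          rw [tws_add, tws_add]
          abel })
    (by
      intro h c j n
      show tws k (ZO.mk (Multiplicative.ofAdd 1 * (h • j).g)) _ -
          tws k (ZO.mk (h • j).g) _ = _ • (tws k _ _ - tws k _ _)
      rw [smul_sub, smul_tws, smul_tws, ZO.smul_mk, ZO.smul_mk, ZO.smul_g, mul_assoc])

lemma dd3_tws (j : Multiplicative ℤ) (n : N) :
    dd3 S k N (tws k (ZO.mk j) n) =
      tws k (ZO.mk (Multiplicative.ofAdd 1 * j)) n - tws k (ZO.mk j) n :=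
  twLin_tws k _ _ _ _

/-- sum of values -/
def dd4 : Tw k H (ZO S) N →ₗ[MonoidAlgebra k H] N :=
  twLin k (Ω := ZO S) (N := N) (fun _ => AddMonoidHom.id N) (by
      intro h c j n
      rfl)

lemma dd4_tws (j : Multiplicative ℤ) (n : N) :
    dd4 S k N (tws k (ZO.mk j) n) = n :=
  twLin_tws k _ _ _ _

variable {k N} in
/-- conversion -/
def toX (X : Type u) : Tw k H (XO X H) N ≃+ (X × H →₀ N) :=
  AddEquiv.refl (X × H →₀ N)

variable {k N} in
/-- conversion -/
def toH : Tw k H (RO H) N ≃+ (H →₀ N) := AddEquiv.refl (H →₀ N)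

variable {k N} in
/-- conversion -/
def toZ : Tw k H (ZO S) N ≃+ (Multiplicative ℤ →₀ N) := AddEquiv.refl (Multiplicative ℤ →₀ N)

lemma toX_tws (X : Type u) (i : X) (h : H) (n : N) :
    toX X (tws k (XO.mk i h) n) = Finsupp.single (i, h) n := rfl
lemma toH_tws (h : H) (n : N) : toH (tws k (RO.mk h) n) = Finsupp.single h n := rfl
lemma toZ_tws (j : Multiplicative ℤ) (n : N) :
    toZ S (tws k (ZO.mk j) n) = Finsupp.single j n := rfl

lemma XO.exists_mk (X : Type u) (ω : XO X H) : ∃ i h, ω = XO.mk i h := ⟨ω.x, ω.g, rfl⟩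
lemma RO.exists_mk (ω : RO H) : ∃ h, ω = RO.mk h := ⟨ω.g, rfl⟩
lemma ZO.exists_mk (ω : ZO S) : ∃ j, ω = ZO.mk j := ⟨ω.g, rfl⟩

lemma dd1_eq (y : Tw k H (XO S.α H) N) :
    toH (dd1 S k N y) = S.PsiB (Finsupp.curry (toX _ y)) := by
  induction y using tw_induction with
  | h0 =>
    have : Finsupp.curry (0 : S.α × H →₀ N) = 0 := by
      ext a b; rfl
    rw [map_zero, map_zero, map_zero, this, map_zero]
  | ha x y hx hy =>
    have : Finsupp.curry (toX _ x + toX _ y) = Finsupp.curry (toX _ x) +
        Finsupp.curry (toX _ y) := by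
      ext a b; rfl
    rw [map_add, map_add, map_add, this, map_add, hx, hy]
  | hs ω n =>
    obtain ⟨i, ω, rfl⟩ := XO.exists_mk _ ω
    rw [dd1_tws, map_sub, toH_tws, toH_tws, toX_tws, Finsupp.curry_single, S.PsiB_single,
      Lt_single]

lemma dd1_inj : Function.Injective (dd1 S k N) := by
  rw [injective_iff_map_eq_zero]
  intro y hy
  have h1 := dd1_eq S k N y
  rw [hy, map_zero] at h1
  have h2 := S.PsiB_inj _ h1.symm
  have h3 : toX _ y = 0 := by
    ext ⟨a, b⟩
    have h4 := DFunLike.congr_fun (DFunLike.congr_fun h2 a) b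
    exact h4
  exact (map_eq_zero_iff _ (toX _).injective).1 h3

lemma dd2_eq (y : Tw k H (RO H) N) :
    toZ S (dd2 S k N y) = Finsupp.mapDomain S.φ (toH y) := by
  induction y using tw_induction with
  | h0 => rw [map_zero, map_zero, map_zero, Finsupp.mapDomain_zero]
  | ha x y hx hy =>
    rw [map_add, map_add, map_add, Finsupp.mapDomain_add, hx, hy]
  | hs ω n =>
    obtain ⟨h, hh⟩ := RO.exists_mk ω
    rw [hh, dd2_tws, toZ_tws, toH_tws, Finsupp.mapDomain_single]

lemma dd12_exact : Function.Exact (dd1 S k N) (dd2 S k N) := by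
  intro y
  constructor
  · intro hy
    have h1 := dd2_eq S k N y
    rw [hy, map_zero] at h1
    obtain ⟨z, hz⟩ := S.PsiB_range (toH y) h1.symm
    refine ⟨(toX _).symm (Finsupp.uncurry z), ?_⟩
    have h2 := dd1_eq S k N ((toX _).symm (Finsupp.uncurry z))
    rw [AddEquiv.apply_symm_apply, Finsupp.curry_uncurry, hz] at h2
    exact toH.injective h2
  · rintro ⟨z, rfl⟩
    induction z using tw_induction with
    | h0 => rw [map_zero, map_zero]
    | ha x y hx hy => rw [map_add, map_add, hx, hy, add_zero]
    | hs ω n =>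
      obtain ⟨i, ω, rfl⟩ := XO.exists_mk _ ω
      rw [dd1_tws, map_sub, dd2_tws, dd2_tws, map_mul, S.φι, one_mul, sub_self]

lemma dd2_surj : Function.Surjective (dd2 S k N) := by
  intro y
  induction y using tw_induction with
  | h0 => exact ⟨0, map_zero _⟩
  | ha x y hx hy =>
    obtain ⟨a, rfl⟩ := hx
    obtain ⟨b, rfl⟩ := hy
    exact ⟨a + b, map_add _ _ _⟩
  | hs j n =>
    obtain ⟨i, hi⟩ := ZO.exists_mk S j
    obtain ⟨h, hh⟩ := S.φ_surj i
    exact ⟨tws k (RO.mk h) n, by rw [dd2_tws, hh, hi]⟩

lemma dd3_apply (y : Tw k H (ZO S) N) (j : Multiplicative ℤ) :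
    toZ S (dd3 S k N y) j =
      toZ S y (Multiplicative.ofAdd (-1) * j) - toZ S y j := by
  induction y using tw_induction with
  | h0 => simp
  | ha x y hx hy =>
    rw [map_add, map_add, map_add, Finsupp.add_apply, Finsupp.add_apply, Finsupp.add_apply, hx, hy]
    abel
  | hs i n =>
    obtain ⟨i', hi⟩ := ZO.exists_mk S i
    rw [hi, dd3_tws, map_sub, toZ_tws, toZ_tws, Finsupp.sub_apply]
    congr 1
    classical
    rw [Finsupp.single_apply, Finsupp.single_apply]
    congr 1
    rw [eq_iff_iff, ofAdd_neg, eq_inv_mul_iff_mul_eq]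

lemma dd3_inj : Function.Injective (dd3 S k N) := by
  rw [injective_iff_map_eq_zero]
  intro y hy
  have h1 : ∀ j : Multiplicative ℤ, toZ S y (Multiplicative.ofAdd (-1) * j) = toZ S y j := by
    intro j
    have := dd3_apply S k N y j
    rw [hy, map_zero, Finsupp.zero_apply] at this
    exact sub_eq_zero.1 this.symm
  have h2 : ∀ a b : ℤ, toZ S y (Multiplicative.ofAdd (a + b)) =
      toZ S y (Multiplicative.ofAdd b) := by
    intro a b
    induction a using Int.induction_on generalizing b with
    | zero => rw [zero_add]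
    | succ i ih =>
      have := h1 (Multiplicative.ofAdd ((i : ℤ) + 1 + b))
      rw [← ofAdd_add, show (-1 : ℤ) + ((i : ℤ) + 1 + b) = i + b by ring, ih] at this
      exact this.symm
    | pred i ih =>
      have := h1 (Multiplicative.ofAdd (-(i : ℤ) + b))
      rw [← ofAdd_add, show (-1 : ℤ) + (-(i : ℤ) + b) = -(i : ℤ) - 1 + b by ring, ih] at this
      exact this
  obtain ⟨j0, hj0⟩ := Infinite.exists_notMem_finset (toZ S y).support
  rw [Finsupp.notMem_support_iff] at hj0
  have h3 : toZ S y = 0 := by
    ext j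
    have := h2 (Multiplicative.toAdd j - Multiplicative.toAdd j0) (Multiplicative.toAdd j0)
    rw [sub_add_cancel, ofAdd_toAdd, ofAdd_toAdd, hj0] at this
    exact this
  exact (map_eq_zero_iff _ (toZ S).injective).1 h3

lemma dd34_exact : Function.Exact (dd3 S k N) (dd4 S k N) := by
  intro y
  constructor
  · intro hy
    have key : ∀ y : Tw k H (ZO S) N, y - tws k (ZO.mk 1 : ZO S) (dd4 S k N y) ∈
        LinearMap.range (dd3 S k N) := by
      intro y
      induction y using tw_induction with
      | h0 =>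
        rw [map_zero, tws_zero, sub_zero]
        exact zero_mem _
      | ha x y hx hy =>
        rw [map_add, tws_add]
        have := add_mem hx hy
        convert this using 1
        abel
      | hs j n =>
        obtain ⟨i', hi⟩ := ZO.exists_mk S j
        rw [hi, dd4_tws]
        have h1 : ∀ a : ℤ, tws k (ZO.mk (Multiplicative.ofAdd a) : ZO S) n -
            tws k (ZO.mk 1 : ZO S) n ∈ LinearMap.range (dd3 S k N) := by
          intro a
          induction a using Int.induction_on with
          | zero =>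
            rw [ofAdd_zero, sub_self]
            exact zero_mem _
          | succ i ih =>
            have h2 : dd3 S k N (tws k (ZO.mk (Multiplicative.ofAdd (i : ℤ)) : ZO S) n) ∈
              LinearMap.range (dd3 S k N) := ⟨_, rfl⟩
            rw [dd3_tws, ← ofAdd_add, add_comm] at h2
            have := add_mem h2 ih
            rwa [sub_add_sub_cancel] at this
          | pred i ih =>
            have h2 : dd3 S k N (tws k (ZO.mk (Multiplicative.ofAdd (-(i : ℤ) - 1)) : ZO S) n) ∈
              LinearMap.range (dd3 S k N) := ⟨_, rfl⟩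
            rw [dd3_tws, ← ofAdd_add, show (1 : ℤ) + (-(i : ℤ) - 1) = -(i : ℤ) by ring] at h2
            have := sub_mem ih h2
            rwa [sub_sub_sub_cancel_left] at this
        exact h1 (Multiplicative.toAdd i')
    have := key y
    rw [hy, tws_zero, sub_zero] at this
    exact this
  · rintro ⟨z, rfl⟩
    induction z using tw_induction with
    | h0 => rw [map_zero, map_zero]
    | ha x y hx hy => rw [map_add, map_add, hx, hy, add_zero]
    | hs j n =>
      obtain ⟨i', hi⟩ := ZO.exists_mk S j
      rw [hi, dd3_tws, map_sub, dd4_tws, dd4_tws, sub_self]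

lemma dd4_surj : Function.Surjective (dd4 S k N) := by
  intro n
  exact ⟨tws k (ZO.mk 1) n, dd4_tws S k N _ n⟩

/-- projective dimension of the coset module is at most one -/
lemma pd_Z : HasProjectiveDimensionLT
    (ModuleCat.of.{u} (MonoidAlgebra k H) (Tw k H (ZO S) N)) 2 := by
  have hS := ModuleCat.shortComplex_shortExact
    (ModuleCat.shortComplexOfCompEqZero (dd1 S k N) (dd2 S k N)
      (by
        apply LinearMap.ext
        intro y
        exact (dd12_exact S k N _).2 ⟨y, rfl⟩))
    (dd12_exact S k N) (dd1_inj S k N) (dd2_surj S k N)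
  have p1 : Projective (ModuleCat.of.{u} (MonoidAlgebra k H) (Tw k H (XO S.α H) N)) :=
    (IsProjective.iff_projective _).1 inferInstance
  have p2 : Projective (ModuleCat.of.{u} (MonoidAlgebra k H) (Tw k H (RO H) N)) :=
    (IsProjective.iff_projective _).1 inferInstance
  exact hS.hasProjectiveDimensionLT_X₃ 1 (projective_iff_hasProjectiveDimensionLT_one.1 p1)
    (by
      have := projective_iff_hasProjectiveDimensionLT_one.1 p2
      exact hasProjectiveDimensionLT_of_ge _ 1 2 (by norm_num))

include S in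
/-- projective dimension is at most two -/
lemma pd_N : HasProjectiveDimensionLT (ModuleCat.of.{u} (MonoidAlgebra k H) N) 3 := by
  have hS := ModuleCat.shortComplex_shortExact
    (ModuleCat.shortComplexOfCompEqZero (dd3 S k N) (dd4 S k N)
      (by
        apply LinearMap.ext
        intro y
        exact (dd34_exact S k N _).2 ⟨y, rfl⟩))
    (dd34_exact S k N) (dd3_inj S k N) (dd4_surj S k N)
  exact hS.hasProjectiveDimensionLT_X₃ 2 (pd_Z S k N)
    (by
      have := pd_Z S k N
      exact hasProjectiveDimensionLT_of_ge _ 2 3 (by norm_num))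

end seq

/-- the kernel of a map of finitely generated free modules is projective -/
theorem FZ.ker_projective {H : Type u} [Group H] (S : FZ H) (k : Type) [Field k] {m n : ℕ}
    (f : (Fin m → MonoidAlgebra k H) →ₗ[MonoidAlgebra k H] (Fin n → MonoidAlgebra k H)) :
    Module.Projective (MonoidAlgebra k H) (LinearMap.ker f) := by
  have h1 := pd_N S k ((Fin n → MonoidAlgebra k H) ⧸ LinearMap.range f)
  -- 0 → range f → R^n → R^n / range f → 0
  have hS1 := ModuleCat.shortComplex_shortExact
    (ModuleCat.shortComplexOfCompEqZero (LinearMap.range f).subtype (LinearMap.range f).mkQ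
      (by
        apply LinearMap.ext
        rintro ⟨y, hy⟩
        exact (Submodule.Quotient.mk_eq_zero _).2 hy))
    (LinearMap.exact_subtype_mkQ _) (LinearMap.range f).subtype_injective
    (Submodule.mkQ_surjective _)
  have pn : Projective (ModuleCat.of.{u} (MonoidAlgebra k H) (Fin n → MonoidAlgebra k H)) :=
    (IsProjective.iff_projective _).1 inferInstance
  have pm : Projective (ModuleCat.of.{u} (MonoidAlgebra k H) (Fin m → MonoidAlgebra k H)) :=
    (IsProjective.iff_projective _).1 inferInstance
  have h2 := hS1.hasProjectiveDimensionLT_X₁ 2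
    (by
      have := projective_iff_hasProjectiveDimensionLT_one.1 pn
      exact hasProjectiveDimensionLT_of_ge _ 1 2 (by norm_num)) h1
  have hS2 := LinearMap.shortExact_shortComplexKer (f := f.rangeRestrict)
    f.surjective_rangeRestrict
  have h3 := hS2.hasProjectiveDimensionLT_X₁ 1
    (projective_iff_hasProjectiveDimensionLT_one.1 pm) h2
  have h4 := projective_iff_hasProjectiveDimensionLT_one.2 h3
  have h5 : Module.Projective (MonoidAlgebra k H) (LinearMap.ker f.rangeRestrict) :=
    (IsProjective.iff_projective _).2 h4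
  rw [LinearMap.ker_rangeRestrict] at h5
  exact h5

end

end Run7.h25
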