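import Mathlib
import Pool.Agent.Run7.h25.Proj

set_option autoImplicit false

/-!
Coherence of the group algebra over a field of a free-by-(infinite cyclic) group.
-/

namespace Run7.h25

open MonoidAlgebra

universe u v w

noncomputable section

variable {H : Type u} [Group H] (S : FZ H)

lemma FZ.lift_sub (k : Type w) [CommRing k] {M : Type v} [AddCommGroup M]
    [Module (MonoidAlgebra k H) M] (K : Submodule (MonoidAlgebra k H) M) (x : M) (hx : x ∈ K)
    (y : M) (hy : y ∈ K) (z : S.α →₀ M) (hz : ∀ i, z i ∈ K) (e : x = y + S.Psi k M z) :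
    ∃ W : S.α →₀ K, (⟨x, hx⟩ : K) = ⟨y, hy⟩ + S.Psi k K W := by
  let W : S.α →₀ K := Finsupp.onFinset z.support (fun i => ⟨z i, hz i⟩) (by
    intro i hi
    rw [Finsupp.mem_support_iff]
    intro h0
    apply hi
    exact Subtype.ext h0)
  have e1 : W.mapRange K.subtype (map_zero _) = z := by
    ext1 i
    rw [Finsupp.mapRange_apply]
    rfl
  have e2 := S.Psi_map k K.subtype W
  rw [e1] at e2
  refine ⟨W, ?_⟩
  apply Subtype.ext
  rw [Submodule.subtype_apply] at e2
  rw [Submodule.coe_add, e2]
  exact e

include S in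
/-- equivariant maps from a kernel which vanish on a certain finite set vanish -/
lemma FZ.ker_hom_vanish (k : Type) [CommRing k] [IsNoetherianRing k] {m n : ℕ}
    (f : (Fin m → MonoidAlgebra k H) →ₗ[MonoidAlgebra k H] (Fin n → MonoidAlgebra k H)) :
    ∃ G : Finset (Fin m → MonoidAlgebra k H), (∀ x ∈ G, f x = 0) ∧
      ∀ (B : Type) [AddCommGroup B] (h : LinearMap.ker f →+ (H →₀ B))
        (_ : ∀ (g : H) (x : LinearMap.ker f),
          h ((single g 1 : MonoidAlgebra k H) • x) = Lt g (h x))
        (_ : ∀ x : LinearMap.ker f,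
          (x : Fin m → MonoidAlgebra k H) ∈ Submodule.span (MonoidAlgebra k H) (G : Set _) →
            h x = 0) (x : LinearMap.ker f), h x = 0 := by
  obtain ⟨G, hG1, hG2⟩ := S.ker_mod k f
  refine ⟨G, hG1, ?_⟩
  intro B _ h heq hG
  have hspan : Submodule.span (MonoidAlgebra k H) (G : Set (Fin m → MonoidAlgebra k H)) ≤
      LinearMap.ker f := by
    rw [Submodule.span_le]
    intro w hw
    exact hG1 w hw
  refine S.hom_vanish k h heq (fun x => (x : Fin m → MonoidAlgebra k H) ∈
    Submodule.span (MonoidAlgebra k H) (G : Set _)) hG ?_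
  rintro ⟨x, hx⟩
  obtain ⟨y, hy, z, hz, hxyz⟩ := hG2 x hx
  exact ⟨⟨y, hspan hy⟩, hy, S.lift_sub k (LinearMap.ker f) x hx y (hspan hy) z hz hxyz⟩

include S in
/-- kernels of maps of finitely generated free modules are finitely generated (field case) -/
theorem FZ.ker_fg_field (k : Type) [Field k] {m n : ℕ}
    (f : (Fin m → MonoidAlgebra k H) →ₗ[MonoidAlgebra k H] (Fin n → MonoidAlgebra k H)) :
    (LinearMap.ker f).FG := by
  classical
  obtain ⟨G, hG1, hG2⟩ := S.ker_hom_vanish k f
  have hp := S.ker_projective k f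
  obtain ⟨s, hs⟩ := Module.projective_def'.1 hp
  let E : Finset (LinearMap.ker f) := G.attach.biUnion (fun g => (s ⟨g.1, hG1 g.1 g.2⟩).support)
  have key : ∀ j ∉ E, ∀ x : LinearMap.ker f, s x j = 0 := by
    intro j hj
    let l : LinearMap.ker f →ₗ[MonoidAlgebra k H] MonoidAlgebra k H := (Finsupp.lapply j).comp s
    have hl : ∀ x, l x = s x j := fun _ => rfl
    let h : LinearMap.ker f →+ (H →₀ k) :=
      (coeffAddEquiv (R := k) (M := H)).toAddMonoidHom.comp l.toAddMonoidHom
    have hh : ∀ x, h x = (l x).coeff := fun _ => rfl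
    have h0 := hG2 k h
      (by
        intro g x
        rw [hh, hh, map_smul, smul_eq_mul]
        ext t
        rw [coeff_single_mul_apply, one_mul, Lt_apply])
      (by
        have h1 : Submodule.span (MonoidAlgebra k H) (G : Set (Fin m → MonoidAlgebra k H)) ≤
            (LinearMap.ker l).map (LinearMap.ker f).subtype := by
          rw [Submodule.span_le]
          intro w hw
          refine ⟨⟨w, hG1 w hw⟩, ?_, rfl⟩
          show l _ = 0
          rw [hl]
          by_contra hne
          apply hj
          rw [Finset.mem_biUnion]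
          exact ⟨⟨w, hw⟩, Finset.mem_attach _ _, Finsupp.mem_support_iff.2 hne⟩
        intro x hx
        obtain ⟨x', hx', hxx'⟩ := h1 hx
        have h2 : x' = x := Subtype.ext hxx'
        rw [hh, ← h2, LinearMap.mem_ker.1 hx', coeff_zero])
    intro x
    have h3 := h0 x
    rw [hh] at h3
    rw [← hl]
    exact coeff_injective h3
  rw [← Module.Finite.iff_fg]
  refine ⟨⟨E, ?_⟩⟩
  rw [eq_top_iff]
  intro x _
  have h1 := LinearMap.congr_fun hs x
  rw [LinearMap.comp_apply, LinearMap.id_apply, Finsupp.linearCombination_apply] at h1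
  rw [← h1]
  apply Submodule.sum_mem
  intro j hj
  apply Submodule.smul_mem
  apply Submodule.subset_span
  by_contra hjE
  exact (Finsupp.mem_support_iff.1 hj) (key j hjE x)

end

end Run7.h25
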