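import Mathlib
import Pool.Agent.Run7.h25.Field
import Pool.Agent.Run7.h25.Colon

set_option autoImplicit false

/-!
Coherence of the integral group ring of a free-by-(infinite cyclic) group.
-/

namespace Run7.h25

open MonoidAlgebra

universe u v w

noncomputable section

variable {H : Type u} [Group H]

/-- the integral group ring in the rational one -/
def θQ (H : Type u) [Group H] : MonoidAlgebra ℤ H →+* MonoidAlgebra ℚ H :=
  mapRingHom H (Int.castRingHom ℚ)

lemma θQ_coeff (x : MonoidAlgebra ℤ H) (h : H) : (θQ H x).coeff h = (x.coeff h : ℚ) := by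
  rw [θQ, coeff_mapRingHom]
  rfl

lemma θQ_inj : Function.Injective (θQ H) := by
  intro x y hxy
  ext h
  have h1 := θQ_coeff x h
  rw [hxy, θQ_coeff] at h1
  exact_mod_cast h1.symm

lemma θQ_clear (x : MonoidAlgebra ℚ H) : ∃ N : ℕ, N ≠ 0 ∧ ∃ a, N • x = θQ H a := by
  induction x using MonoidAlgebra.induction_linear with
  | zero => exact ⟨1, one_ne_zero, 0, by rw [map_zero, smul_zero]⟩
  | add a b ha hb =>
    obtain ⟨N, hN, c, hc⟩ := ha
    obtain ⟨N', hN', c', hc'⟩ := hb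
    refine ⟨N * N', mul_ne_zero hN hN', N' • c + N • c', ?_⟩
    rw [map_add, map_nsmul, map_nsmul, ← hc, ← hc', smul_add, mul_smul, mul_smul,
      smul_comm N N' a]
  | single h q =>
    refine ⟨q.den, q.den_nz, single h q.num, ?_⟩
    rw [θQ, mapRingHom_single, smul_single]
    congr 1
    rw [nsmul_eq_mul, mul_comm]
    exact Rat.mul_den_eq_num q

lemma θQ_clear_fin {m : ℕ} (x : Fin m → MonoidAlgebra ℚ H) :
    ∃ N : ℕ, N ≠ 0 ∧ ∃ a, N • x = cw (θQ H) m a := by
  choose N hN a ha using fun i => θQ_clear (x i)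
  refine ⟨∏ i, N i, Finset.prod_ne_zero_iff.2 (fun i _ => hN i),
    fun i => (∏ j ∈ Finset.univ.erase i, N j) • a i, ?_⟩
  funext i
  rw [cw_apply, map_nsmul, ← ha, ← mul_smul, Finset.prod_erase_mul _ _ (Finset.mem_univ i)]
  rfl

/-- common denominator for a finite family -/
lemma θQ_clear_fam {m : ℕ} {ι : Type*} (T : Finset ι) (x : ι → (Fin m → MonoidAlgebra ℚ H)) :
    ∃ N : ℕ, N ≠ 0 ∧ ∀ i ∈ T, ∃ a, N • x i = cw (θQ H) m a := by
  classical
  choose N hN a ha using fun i => θQ_clear_fin (x i)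
  refine ⟨∏ i ∈ T, N i, Finset.prod_ne_zero_iff.2 (fun i _ => hN i), ?_⟩
  intro i hi
  refine ⟨(∏ j ∈ T.erase i, N j) • a i, ?_⟩
  rw [map_nsmul, ← ha, ← mul_smul, Finset.prod_erase_mul _ _ hi]

lemma cw_inj {A : Type u} {A' : Type v} [Ring A] [Ring A'] (θ : A →+* A')
    (hθ : Function.Injective θ) (m : ℕ) : Function.Injective (cw θ m) := by
  intro x y hxy
  funext i
  exact hθ (congrFun hxy i)

/-- the quotient of the rationals by the integers -/
abbrev QZ : Type := ℚ ⧸ (Int.castAddHom ℚ).range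

/-- coefficients modulo the integers -/
def modZ : MonoidAlgebra ℚ H →+ (H →₀ QZ) :=
  (Finsupp.mapRange.addMonoidHom (QuotientAddGroup.mk' (Int.castAddHom ℚ).range)).comp
    (coeffAddEquiv (R := ℚ) (M := H)).toAddMonoidHom

lemma modZ_apply (x : MonoidAlgebra ℚ H) (h : H) :
    modZ x h = QuotientAddGroup.mk' (Int.castAddHom ℚ).range (x.coeff h) := rfl

lemma modZ_eq_zero (x : MonoidAlgebra ℚ H) : modZ x = 0 ↔ ∃ a, x = θQ H a := by
  constructor
  · intro hx
    refine ⟨.ofCoeff (x.coeff.mapRange Rat.num Rat.num_zero), ?_⟩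
    ext h
    rw [θQ_coeff, coeff_ofCoeff, Finsupp.mapRange_apply]
    have h1 := DFunLike.congr_fun hx h
    rw [modZ_apply, Finsupp.zero_apply, QuotientAddGroup.mk'_apply,
      QuotientAddGroup.eq_zero_iff] at h1
    obtain ⟨n, hn⟩ := h1
    rw [← hn]
    simp
  · rintro ⟨a, rfl⟩
    ext h
    rw [modZ_apply, θQ_coeff, Finsupp.zero_apply, QuotientAddGroup.mk'_apply,
      QuotientAddGroup.eq_zero_iff]
    exact ⟨a.coeff h, rfl⟩

lemma modZ_Lt (g : H) (x : MonoidAlgebra ℚ H) : modZ (single g 1 * x) = Lt g (modZ x) := by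
  ext h
  rw [modZ_apply, coeff_single_mul_apply, one_mul, Lt_apply, modZ_apply]

/-- generators and a section for a finitely generated projective submodule -/
lemma exists_section {A : Type u} [Ring A] {m : ℕ} (K : Submodule A (Fin m → A)) (hK : K.FG)
    (hp : Module.Projective A K) :
    ∃ (r : ℕ) (s : Fin r → (Fin m → A)) (σ : K →ₗ[A] (Fin r → A)), (∀ j, s j ∈ K) ∧
      ∀ x : K, (x : Fin m → A) = ∑ j, σ x j • s j := by
  obtain ⟨r, s, hs⟩ := Submodule.fg_iff_exists_fin_generating_family.1 hK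
  have hsK : ∀ j, s j ∈ K := by
    intro j
    rw [← hs]
    exact Submodule.subset_span ⟨j, rfl⟩
  let P : (Fin r → A) →ₗ[A] K := Fintype.linearCombination A (fun j => (⟨s j, hsK j⟩ : K))
  have hP' : ∀ c, (P c : Fin m → A) = ∑ j, c j • s j := by
    intro c
    show K.subtype (P c) = _
    rw [Fintype.linearCombination_apply, map_sum]
    rfl
  have hP : LinearMap.range P = ⊤ := by
    rw [eq_top_iff]
    rintro ⟨x, hx⟩ -
    have hx' := hx
    rw [← hs, ← Fintype.range_linearCombination] at hx'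
    obtain ⟨c, hc⟩ := hx'
    refine ⟨c, ?_⟩
    apply Subtype.ext
    rw [hP', ← Fintype.linearCombination_apply, hc]
  obtain ⟨σ, hσ⟩ := P.exists_rightInverse_of_surjective hP
  refine ⟨r, s, σ, hsK, ?_⟩
  intro x
  rw [← hP', ← LinearMap.comp_apply, hσ]
  rfl

/-- a semilinear section -/
lemma exists_semi {m n : ℕ}
    (f : (Fin m → MonoidAlgebra ℤ H) →ₗ[MonoidAlgebra ℤ H] (Fin n → MonoidAlgebra ℤ H))
    (hK : (LinearMap.ker (bc (θQ H) f)).FG)
    (hp : Module.Projective (MonoidAlgebra ℚ H) (LinearMap.ker (bc (θQ H) f))) :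
    ∃ (r : ℕ) (z : Fin r → (Fin m → MonoidAlgebra ℤ H)) (N : ℕ)
      (τ : LinearMap.ker f →ₛₗ[θQ H] (Fin r → MonoidAlgebra ℚ H)), N ≠ 0 ∧
      (∀ j, f (z j) = 0) ∧
      ∀ x : LinearMap.ker f, N • cw (θQ H) m x = ∑ j, τ x j • cw (θQ H) m (z j) := by
  obtain ⟨r, s, σ, hsK, hσ⟩ := exists_section _ hK hp
  obtain ⟨N, hN, hz⟩ := θQ_clear_fam (Finset.univ : Finset (Fin r)) s
  choose z hz using fun j => hz j (Finset.mem_univ j)
  have hmemK : ∀ x, f x = 0 ↔ cw (θQ H) m x ∈ LinearMap.ker (bc (θQ H) f) := by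
    intro x
    rw [LinearMap.mem_ker, bc_cw]
    constructor
    · intro h
      rw [h, map_zero]
    · intro h
      apply cw_inj (θQ H) θQ_inj
      rw [h, map_zero]
  let J : LinearMap.ker f →ₛₗ[θQ H] LinearMap.ker (bc (θQ H) f) :=
    { toFun := fun x => ⟨cw (θQ H) m x.1, (hmemK x.1).1 x.2⟩
      map_add' := fun x y => Subtype.ext (map_add (cw (θQ H) m) x.1 y.1)
      map_smul' := fun a x => Subtype.ext (cw_smul (θQ H) a x.1) }
  refine ⟨r, z, N, σ.comp J, hN, ?_, ?_⟩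
  · intro j
    rw [hmemK, ← hz]
    exact nsmul_mem (hsK j) N
  · intro x
    have h1 : cw (θQ H) m x = ∑ j, σ (J x) j • s j := hσ (J x)
    rw [h1, Finset.smul_sum]
    apply Finset.sum_congr rfl
    intro j _
    rw [← hz, LinearMap.comp_apply, smul_comm]

variable (S : FZ H)

include S in
lemma FZ.semi_int {m n r : ℕ}
    (f : (Fin m → MonoidAlgebra ℤ H) →ₗ[MonoidAlgebra ℤ H] (Fin n → MonoidAlgebra ℤ H))
    (τ : LinearMap.ker f →ₛₗ[θQ H] (Fin r → MonoidAlgebra ℚ H)) :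
    ∃ N : ℕ, N ≠ 0 ∧ ∀ x : LinearMap.ker f, ∃ a : Fin r → MonoidAlgebra ℤ H,
      N • τ x = cw (θQ H) r a := by
  classical
  obtain ⟨G, hG1, hG2⟩ := S.ker_hom_vanish ℤ f
  obtain ⟨N0, hN0, hc⟩ := θQ_clear_fam G.attach (fun g => τ ⟨g.1, hG1 g.1 g.2⟩)
  refine ⟨N0, hN0, ?_⟩
  let h : Fin r → (LinearMap.ker f →+ (H →₀ QZ)) := fun j =>
    { toFun := fun x => modZ (N0 • τ x j)
      map_zero' := by rw [map_zero, Pi.zero_apply, smul_zero, map_zero]
      map_add' := fun x y => by rw [map_add, Pi.add_apply, smul_add, map_add] }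
  have hh : ∀ j x, h j x = modZ (N0 • τ x j) := fun _ _ => rfl
  let U : Submodule (MonoidAlgebra ℤ H) (LinearMap.ker f) :=
    { carrier := {x | ∃ a, N0 • τ x = cw (θQ H) r a}
      zero_mem' := ⟨0, by rw [map_zero, map_zero, smul_zero]⟩
      add_mem' := by
        rintro x y ⟨a, ha⟩ ⟨b, hb⟩
        exact ⟨a + b, by rw [map_add, smul_add, ha, hb, map_add]⟩
      smul_mem' := by
        rintro c x ⟨a, ha⟩
        exact ⟨c • a, by rw [map_smulₛₗ, smul_comm, ha, cw_smul]⟩ }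
  have hU : Submodule.span (MonoidAlgebra ℤ H) (G : Set (Fin m → MonoidAlgebra ℤ H)) ≤
      U.map (LinearMap.ker f).subtype := by
    rw [Submodule.span_le]
    intro w hw
    exact ⟨⟨w, hG1 w hw⟩, hc ⟨w, hw⟩ (Finset.mem_attach _ _), rfl⟩
  have hh0 : ∀ j x, h j x = 0 := by
    intro j
    apply hG2 QZ (h j)
    · intro g x
      rw [hh, hh, LinearMap.map_smulₛₗ τ, Pi.smul_apply]
      have h1 : θQ H (single g 1) = single g 1 := by
        rw [θQ, mapRingHom_single, map_one]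
      rw [h1, smul_eq_mul, ← modZ_Lt, mul_smul_comm]
    · intro x hx
      obtain ⟨x', ⟨a, ha⟩, hxx'⟩ := hU hx
      have hxx : x' = x := Subtype.ext hxx'
      rw [hxx] at ha
      rw [hh, modZ_eq_zero]
      exact ⟨a j, congrFun ha j⟩
  intro x
  choose a ha using fun j => (modZ_eq_zero _).1 (hh0 j x)
  exact ⟨a, funext ha⟩

include S in
theorem FZ.ker_nearly_fg {m n : ℕ}
    (f : (Fin m → MonoidAlgebra ℤ H) →ₗ[MonoidAlgebra ℤ H] (Fin n → MonoidAlgebra ℤ H)) :
    ∃ N : ℕ, N ≠ 0 ∧ ∃ Φ : Submodule (MonoidAlgebra ℤ H) (Fin m → MonoidAlgebra ℤ H), Φ.FG ∧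
      LinearMap.ker f = colon N Φ := by
  obtain ⟨r, z, N, τ, hN, hzK, hτ⟩ := exists_semi f (S.ker_fg_field ℚ _) (S.ker_projective ℚ _)
  obtain ⟨N0, hN0, hint⟩ := S.semi_int f τ
  refine ⟨N0 * N, mul_ne_zero hN0 hN, Submodule.span _ (Set.range z),
    Submodule.fg_span (Set.finite_range z), ?_⟩
  apply le_antisymm
  · intro x hx
    rw [mem_colon]
    obtain ⟨a, ha⟩ := hint ⟨x, hx⟩
    have h2 : (N0 * N) • x = ∑ j, a j • z j := by
      apply cw_inj (θQ H) θQ_inj
      have h3 := hτ ⟨x, hx⟩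
      rw [map_sum, map_nsmul, mul_smul, h3, Finset.smul_sum]
      apply Finset.sum_congr rfl
      intro j _
      have h4 := congrFun ha j
      rw [Pi.smul_apply, cw_apply] at h4
      rw [cw_smul, ← h4, smul_assoc]
    rw [h2]
    apply Submodule.sum_mem
    intro j _
    exact Submodule.smul_mem _ _ (Submodule.subset_span ⟨j, rfl⟩)
  · intro x hx
    rw [mem_colon] at hx
    have h1 : Submodule.span _ (Set.range z) ≤ LinearMap.ker f := by
      rw [Submodule.span_le]
      rintro _ ⟨j, rfl⟩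
      exact hzK j
    have h2 := h1 hx
    rw [LinearMap.mem_ker, map_nsmul] at h2
    rw [LinearMap.mem_ker]
    funext i
    have h3 := congrFun h2 i
    rw [Pi.smul_apply] at h3
    ext g
    have h4 := congrArg (fun y => y.coeff g) h3
    simp only [Pi.zero_apply, coeff_zero, Finsupp.zero_apply] at h4 ⊢
    rw [coeff_smul, Finsupp.smul_apply, nsmul_eq_mul] at h4
    rcases mul_eq_zero.1 h4 with h5 | h5
    · exact absurd (by exact_mod_cast h5) (mul_ne_zero hN0 hN)
    · exact h5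

include S in
theorem FZ.ker_fg_int {m n : ℕ}
    (f : (Fin m → MonoidAlgebra ℤ H) →ₗ[MonoidAlgebra ℤ H] (Fin n → MonoidAlgebra ℤ H)) :
    (LinearMap.ker f).FG := by
  obtain ⟨N, hN, Φ, hΦ, he⟩ := S.ker_nearly_fg f
  rw [he]
  refine colon_all ?_ N hN Φ hΦ
  intro p hp Ψ hΨ
  have := Fact.mk hp
  refine colon_fg (mapRingHom H (Int.castRingHom (ZMod p))) ?_ p ?_ ?_ ?_ ?_ Ψ hΨ
  · exact map_surjective _ (ZMod.ringHom_surjective (Int.castRingHom (ZMod p)))
  · intro a ha
    refine ⟨.ofCoeff (a.coeff.mapRange (fun n => n / (p : ℤ)) (by simp)), ?_⟩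
    ext g
    have h1 := congrArg (fun y => y.coeff g) ha
    simp only [coeff_mapRingHom, coeff_zero, Finsupp.zero_apply] at h1
    rw [coeff_smul, Finsupp.smul_apply, coeff_ofCoeff, Finsupp.mapRange_apply, nsmul_eq_mul]
    have h2 : (p : ℤ) ∣ a.coeff g := by
      rw [← ZMod.intCast_zmod_eq_zero_iff_dvd]
      exact h1
    exact (Int.mul_ediv_cancel' h2).symm
  · intro a ha
    ext g
    have h1 := congrArg (fun y => y.coeff g) ha
    simp only [coeff_zero, Finsupp.zero_apply] at h1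
    rw [coeff_smul, Finsupp.smul_apply, nsmul_eq_mul] at h1
    rcases mul_eq_zero.1 h1 with h5 | h5
    · exact absurd (by exact_mod_cast h5) hp.ne_zero
    · exact h5
  · ext g
    simp
  · intro r m g
    exact S.ker_fg_field (ZMod p) g

end

end Run7.h25
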