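import Mathlib
import Pool.Agent.Run7.h25.IntCase

set_option autoImplicit false

/-!
Passage from a subgroup of finite index to the whole group.
-/

namespace Run7.h25

open MonoidAlgebra

universe u v w

noncomputable section

/-- the data attached to a homomorphism onto the integers with free kernel -/
def mkFZ {H : Type u} [Group H] (φ : H →* Multiplicative ℤ) (hφ : Function.Surjective φ)
    [IsFreeGroup φ.ker] : FZ H where
  α := IsFreeGroup.Generators φ.ker
  dec := Classical.decEq _
  φ := φ
  t := (hφ (Multiplicative.ofAdd 1)).choose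
  ht := (hφ (Multiplicative.ofAdd 1)).choose_spec
  ι := φ.ker.subtype.comp (IsFreeGroup.mulEquiv φ.ker).toMonoidHom
  inj := Subtype.val_injective.comp (IsFreeGroup.mulEquiv φ.ker).injective
  ran h := by
    constructor
    · intro hh
      exact ⟨(IsFreeGroup.mulEquiv φ.ker).symm ⟨h, hh⟩, by simp⟩
    · rintro ⟨g, rfl⟩
      exact (IsFreeGroup.mulEquiv φ.ker g).2

/-- kernels of maps of finitely generated free modules are finitely generated -/
def CohFin (A : Type u) [Ring A] : Prop :=
  ∀ (m n : ℕ) (f : (Fin m → A) →ₗ[A] (Fin n → A)), (LinearMap.ker f).FG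

lemma CohFin.ker_fg {A : Type u} [Ring A] [Nontrivial A] (hA : CohFin A) {M N : Type v}
    [AddCommGroup M] [AddCommGroup N] [Module A M] [Module A N] [Module.Free A M]
    [Module.Free A N] [Module.Finite A M] [Module.Finite A N] (f : M →ₗ[A] N) :
    (LinearMap.ker f).FG := by
  let bM := (Module.Free.chooseBasis A M).reindex (Fintype.equivFin _)
  let bN := (Module.Free.chooseBasis A N).reindex (Fintype.equivFin _)
  let e1 := bM.equivFun
  let e2 := bN.equivFun
  let f' := (e2.toLinearMap.comp f).comp e1.symm.toLinearMap
  have h1 := hA _ _ f'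
  have h2 : LinearMap.ker f = (LinearMap.ker f').map e1.symm.toLinearMap := by
    ext x
    constructor
    · intro hx
      refine ⟨e1 x, ?_, e1.symm_apply_apply x⟩
      show e2 (f (e1.symm (e1 x))) = 0
      rw [e1.symm_apply_apply, LinearMap.mem_ker.1 hx, map_zero]
    · rintro ⟨y, hy, rfl⟩
      have h3 : e2 (f (e1.symm y)) = 0 := hy
      show f (e1.symm y) = 0
      exact e2.injective (by rw [h3, map_zero])
  rw [h2]
  exact h1.map _

lemma CohFin.of_finite_free {A : Type u} {B : Type v} [Ring A] [Nontrivial A] [Ring B]
    [Module A B] [IsScalarTower A B B] [Module.Free A B] [Module.Finite A B]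
    (hA : CohFin A) : CohFin B := by
  intro m n f
  apply Submodule.FG.of_restrictScalars A
  exact hA.ker_fg (f.restrictScalars A)

lemma CohFin.ideal {A : Type u} [Ring A] (hA : CohFin A) (I : Ideal A) (hI : I.FG) :
    Module.FinitePresentation A I := by
  obtain ⟨r, s, hs⟩ := Submodule.fg_iff_exists_fin_generating_family.1 hI
  have hsI : ∀ j, s j ∈ I := by
    intro j
    rw [← hs]
    exact Submodule.subset_span ⟨j, rfl⟩
  let P : (Fin r → A) →ₗ[A] I := Fintype.linearCombination A (fun j => (⟨s j, hsI j⟩ : I))
  have hP' : ∀ c, (P c : A) = Fintype.linearCombination A s c := by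
    intro c
    show I.subtype (P c) = _
    rw [Fintype.linearCombination_apply, map_sum, Fintype.linearCombination_apply]
    rfl
  have hP : Function.Surjective P := by
    rintro ⟨x, hx⟩
    have hx' := hx
    rw [← hs, ← Fintype.range_linearCombination] at hx'
    obtain ⟨c, hc⟩ := hx'
    refine ⟨c, ?_⟩
    apply Subtype.ext
    rw [hP', hc]
  refine Module.finitePresentation_of_surjective P hP ?_
  have h1 := hA r 1 (LinearMap.pi (fun _ => Fintype.linearCombination A s))
  have h2 : LinearMap.ker P = LinearMap.ker
      (LinearMap.pi (fun _ : Fin 1 => Fintype.linearCombination A s)) := by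
    ext x
    rw [LinearMap.mem_ker, LinearMap.mem_ker]
    constructor
    · intro h
      funext i
      rw [LinearMap.pi_apply, ← hP', h]
      rfl
    · intro h
      apply Subtype.ext
      rw [hP']
      exact congrFun h 0
  rw [h2]
  exact h1

section subgroup

variable {G : Type u} [Group G] (H : Subgroup G) (k : Type w) [CommRing k]

/-- the inclusion of group rings -/
abbrev incl : MonoidAlgebra k H →+* MonoidAlgebra k G := mapDomainRingHom k H.subtype

/-- the module structure over the group ring of a subgroup -/
@[reducible]
def modSub : Module (MonoidAlgebra k H) (MonoidAlgebra k G) :=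
  Module.compHom (MonoidAlgebra k G) (incl H k)

lemma coeff_incl (x : MonoidAlgebra k H) (h : H) : (incl H k x).coeff (h : G) = x.coeff h :=
  Finsupp.mapDomain_apply Subtype.val_injective x.coeff h

lemma coeff_incl_of_notMem (x : MonoidAlgebra k H) (g : G) (hg : g ∉ H) :
    (incl H k x).coeff g = 0 := by
  apply Finsupp.mapDomain_of_notMem_range
  rintro ⟨h, rfl⟩
  exact hg h.2

variable (T : Set G)

/-- the comparison map for a right transversal -/
def cmpT : (T →₀ MonoidAlgebra k H) →+ MonoidAlgebra k G :=
  Finsupp.liftAddHom (fun t => (AddMonoidHom.mulRight (single (t : G) (1 : k))).comp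
    (incl H k).toAddMonoidHom)

lemma cmpT_apply (z : T →₀ MonoidAlgebra k H) :
    cmpT H k T z = z.sum (fun t x => incl H k x * single (t : G) 1) := rfl

lemma cmpT_single (t : T) (x : MonoidAlgebra k H) :
    cmpT H k T (Finsupp.single t x) = incl H k x * single (t : G) 1 := by
  rw [cmpT_apply, Finsupp.sum_single_index (by rw [map_zero, zero_mul])]

variable {T} (hT : Subgroup.IsComplement (H : Set G) T)

include hT in
lemma coeff_cmpT (z : T →₀ MonoidAlgebra k H) (h : H) (t : T) :
    (cmpT H k T z).coeff (h * t : G) = (z t).coeff h := by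
  induction z using Finsupp.induction_linear with
  | zero => simp
  | add a b ha hb =>
    rw [map_add, coeff_add, Finsupp.add_apply, ha, hb]
    simp
  | single s x =>
    rw [cmpT_single, coeff_mul_single_apply, mul_one]
    by_cases hst : s = t
    · subst hst
      rw [mul_inv_cancel_right, coeff_incl, Finsupp.single_eq_same]
    · rw [Finsupp.single_eq_of_ne (Ne.symm hst), coeff_zero, Finsupp.zero_apply]
      apply coeff_incl_of_notMem
      intro hmem
      apply hst
      have h1 : (⟨⟨_, hmem⟩, s⟩ : H × T) = ⟨h, t⟩ := by
        apply hT.1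
        show (h * t * (s : G)⁻¹ : G) * s = h * t
        rw [inv_mul_cancel_right]
      exact congrArg Prod.snd h1

include hT in
lemma cmpT_bij : Function.Bijective (cmpT H k T) := by
  constructor
  · rw [injective_iff_map_eq_zero]
    intro z hz
    ext t h
    rw [← coeff_cmpT H k hT, hz]
    rfl
  · intro x
    induction x using MonoidAlgebra.induction_linear with
    | zero => exact ⟨0, map_zero _⟩
    | add a b ha hb =>
      obtain ⟨y, hy⟩ := ha
      obtain ⟨z, hz⟩ := hb
      exact ⟨y + z, by rw [map_add, hy, hz]⟩
    | single g r =>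
      obtain ⟨⟨h, t⟩, ht⟩ := hT.2 g
      refine ⟨Finsupp.single t (single h r), ?_⟩
      rw [cmpT_single]
      show mapDomain _ _ * _ = _
      rw [mapDomain_single, single_mul_single, mul_one]
      rw [← ht]
      rfl

include hT in
theorem CohFin.of_subgroup [Finite T] [Nontrivial k] (h : CohFin (MonoidAlgebra k H)) :
    CohFin (MonoidAlgebra k G) := by
  let _ := modSub H k
  have hsmul : ∀ (a : MonoidAlgebra k H) (b : MonoidAlgebra k G), a • b = incl H k a * b :=
    fun _ _ => rfl
  have : IsScalarTower (MonoidAlgebra k H) (MonoidAlgebra k G) (MonoidAlgebra k G) :=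
    ⟨fun a b c => by rw [hsmul, hsmul, smul_eq_mul, smul_eq_mul, mul_assoc]⟩
  let e : MonoidAlgebra k G ≃ₗ[MonoidAlgebra k H] (T →₀ MonoidAlgebra k H) :=
    LinearEquiv.symm
    { (AddEquiv.ofBijective (cmpT H k T) (cmpT_bij H k hT)) with
      map_smul' := by
        intro a z
        show cmpT H k T (a • z) = a • cmpT H k T z
        induction z using Finsupp.induction_linear with
        | zero => rw [smul_zero, map_zero, smul_zero]
        | add x y hx hy => rw [smul_add, map_add, hx, hy, map_add, smul_add]
        | single t x =>
          rw [Finsupp.smul_single, cmpT_single, cmpT_single, hsmul, smul_eq_mul, map_mul,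
            mul_assoc] }
  let b : Module.Basis T (MonoidAlgebra k H) (MonoidAlgebra k G) := Module.Basis.ofRepr e
  have := Module.Free.of_basis b
  have := Module.Finite.of_basis b
  exact CohFin.of_finite_free h

end subgroup

/-- coherence of the integral group ring, in terms of ideals -/
theorem coherent_of_virtually {G : Type u} [Group G] (H : Subgroup G) [H.FiniteIndex]
    (φ : H →* Multiplicative ℤ) (hφ : Function.Surjective φ) (hF : IsFreeGroup φ.ker)
    (I : Ideal (MonoidAlgebra ℤ G)) (hI : I.FG) :
    Module.FinitePresentation (MonoidAlgebra ℤ G) I := by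
  obtain ⟨T, hT, -⟩ := H.exists_isComplement_right 1
  have : Finite T := hT.finite_right_iff.2 inferInstance
  have h1 : CohFin (MonoidAlgebra ℤ H) := fun m n f => (mkFZ φ hφ).ker_fg_int f
  exact (CohFin.of_subgroup H ℤ hT h1).ideal I hI

end

end Run7.h25
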